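import Pool.Agent.XLR.FOUR

set_option autoImplicit false

open scoped Classical

noncomputable section

namespace Pool.Agent.XLR

theorem HRANK_add_self {X : Type} (A : X → ZMod 2) : A + A = 0 := by
  funext x
  have : ∀ u : ZMod 2, u + u = 0 := by decide
  exact this _

theorem HRANK_chi_sq {X : Type} [Fintype X] (S A : X → ZMod 2) : chi S A * chi S A = 1 := by
  unfold chi
  split_ifs <;> norm_num

theorem HRANK_eig {X : Type} [Fintype X] (f : (X → ZMod 2) → Bool) (S : X → ZMod 2) :
    (xmat f).mulVec (fun y => chi S y) = fh (ind f) S • (fun y => chi S y) := by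
  funext x
  simp only [Matrix.mulVec, dotProduct, xmat, Matrix.of_apply, Pi.smul_apply, smul_eq_mul]
  have h1 : ∑ y : X → ZMod 2, (if f (x + y) = true then (1 : ℝ) else 0) * chi S y =
      ∑ z : X → ZMod 2, (if f z = true then (1 : ℝ) else 0) * chi S (z + x) := by
    refine Fintype.sum_equiv (Equiv.addLeft x) _ _ ?_
    intro y
    simp only [Equiv.coe_addLeft]
    have : x + y + x = y := by
      have h := HRANK_add_self x
      calc x + y + x = (x + x) + y := by abel
        _ = y := by rw [h, zero_add]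
    rw [this]
    rfl
  rw [h1]
  unfold fh ind
  rw [Finset.sum_mul]
  refine Finset.sum_congr rfl ?_
  intro z _
  rw [HFOUR_chi_add]
  ring

theorem HRANK_orth {X : Type} [Fintype X] (S T : X → ZMod 2) (h : S ≠ T) :
    ∑ y : X → ZMod 2, chi S y * chi T y = 0 := by
  have h1 : ∀ y : X → ZMod 2, chi S y * chi T y = chi y (S + T) := by
    intro y
    rw [HFOUR_chi_add, HFOUR_chi_comm S y, HFOUR_chi_comm T y]
  rw [Finset.sum_congr rfl (fun y _ => h1 y)]
  refine HFOUR_orth (S + T) ?_
  intro h0
  apply h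
  funext x
  have h3 := congrFun h0 x
  simp only [Pi.add_apply, Pi.zero_apply] at h3
  have : ∀ u v : ZMod 2, u + v = 0 → u = v := by decide
  exact this _ _ h3

theorem HRANK_li {X : Type} [Fintype X] :
    LinearIndependent ℝ (fun S : X → ZMod 2 => (fun y : X → ZMod 2 => chi S y)) := by
  rw [Fintype.linearIndependent_iff]
  intro g hg T
  have h1 : ∑ y : X → ZMod 2, (∑ S : X → ZMod 2, g S • (fun y : X → ZMod 2 => chi S y)) y * chi T y
      = 0 := by
    rw [hg]
    simp
  have h2 : ∑ y : X → ZMod 2, (∑ S : X → ZMod 2, g S • (fun y : X → ZMod 2 => chi S y)) y * chi T y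
      = ∑ S : X → ZMod 2, g S * ∑ y : X → ZMod 2, chi S y * chi T y := by
    simp only [Finset.sum_apply, Pi.smul_apply, smul_eq_mul]
    have h3 : ∀ y : X → ZMod 2, (∑ S : X → ZMod 2, g S * chi S y) * chi T y =
        ∑ S : X → ZMod 2, g S * (chi S y * chi T y) := by
      intro y
      rw [Finset.sum_mul]
      exact Finset.sum_congr rfl (fun S _ => by ring)
    rw [Finset.sum_congr rfl (fun y _ => h3 y), Finset.sum_comm]
    exact Finset.sum_congr rfl (fun S _ => by rw [Finset.mul_sum])
  rw [h2, Finset.sum_eq_single T] at h1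
  · have h4 : ∑ y : X → ZMod 2, chi T y * chi T y = (Fintype.card (X → ZMod 2) : ℝ) := by
      rw [Finset.sum_congr rfl (fun y _ => HRANK_chi_sq T y)]
      simp
    rw [h4] at h1
    have h5 : (Fintype.card (X → ZMod 2) : ℝ) ≠ 0 := by
      have : 0 < Fintype.card (X → ZMod 2) := Fintype.card_pos
      positivity
    exact (mul_eq_zero.1 h1).resolve_right h5
  · intro S _ hS
    rw [HRANK_orth S T hS, mul_zero]
  · intro h
    exact absurd (Finset.mem_univ T) h

theorem p_RANK : T_RANK := by
  intro X _ f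
  have hspan : ∀ S ∈ {S : X → ZMod 2 | fh (ind f) S ≠ 0},
      (fun y : X → ZMod 2 => chi S y) ∈ LinearMap.range (xmat f).mulVecLin := by
    intro S hS
    refine ⟨(fh (ind f) S)⁻¹ • (fun y => chi S y), ?_⟩
    rw [map_smul, Matrix.mulVecLin_apply, HRANK_eig, smul_smul, inv_mul_cancel₀ hS, one_smul]
  have hli : LinearIndependent ℝ (fun S : {S : X → ZMod 2 | fh (ind f) S ≠ 0} =>
      (⟨fun y : X → ZMod 2 => chi S.1 y, hspan S.1 S.2⟩ : LinearMap.range (xmat f).mulVecLin)) := by
    have h1 : LinearIndependent ℝ (fun S : {S : X → ZMod 2 | fh (ind f) S ≠ 0} =>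
        (fun y : X → ZMod 2 => chi S.1 y)) :=
      (HRANK_li (X := X)).comp (fun S : {S : X → ZMod 2 | fh (ind f) S ≠ 0} => S.1)
        Subtype.val_injective
    exact LinearIndependent.of_comp (LinearMap.range (xmat f).mulVecLin).subtype h1
  have h2 := hli.fintype_card_le_finrank
  unfold spar Matrix.rank
  rw [Set.ncard_eq_toFinset_card']
  rw [Set.toFinset_card]
  exact h2

end Pool.Agent.XLR
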