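import Pool.Agent.XLR.Targets

set_option autoImplicit false

/-!
# MP_9f5962_lc, XLR: target BIG (large minimal configurations)
-/

open scoped Classical

noncomputable section

namespace Pool.Agent.XLR

namespace HBIG

theorem z2 (a : ZMod 2) (h : a ≠ 0) : a = 1 := by
  revert a
  decide

theorem z2' (a : ZMod 2) : a + a = 0 := by
  revert a
  decide

section

variable {J V : Type} [Fintype J] [Fintype V] {k : ℕ}

theorem par_add (A B : Pt J V k → ZMod 2) (t : J × (Fin k → Fin k → Bool)) :
    par (A + B) t = par A t + par B t := by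
  unfold par
  rw [← Finset.sum_add_distrib]
  refine Finset.sum_congr rfl fun x _ => ?_
  by_cases h : ty x = t
  · rw [if_pos h, if_pos h, if_pos h, Pi.add_apply]
  · rw [if_neg h, if_neg h, if_neg h, add_zero]

theorem par_zero (t : J × (Fin k → Fin k → Bool)) : par (0 : Pt J V k → ZMod 2) t = 0 := by
  unfold par
  refine Finset.sum_eq_zero fun x _ => ?_
  by_cases h : ty x = t
  · rw [if_pos h, Pi.zero_apply]
  · rw [if_neg h]

/-- the indicator of a point -/
def ei (p : Pt J V k) : Pt J V k → ZMod 2 := fun q => if q = p then 1 else 0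

theorem par_ei (p : Pt J V k) (t : J × (Fin k → Fin k → Bool)) :
    par (ei p) t = if ty p = t then 1 else 0 := by
  unfold par ei
  rw [Finset.sum_eq_single p]
  · rw [if_pos rfl]
  · intro q _ hq
    rw [if_neg hq]
    split_ifs <;> rfl
  · intro h
    exact absurd (Finset.mem_univ p) h

theorem ip_ei (S : Pt J V k → ZMod 2) (p : Pt J V k) : ip S (ei p) = S p := by
  unfold ip ei
  rw [Finset.sum_eq_single p]
  · rw [if_pos rfl, mul_one]
  · intro q _ hq
    rw [if_neg hq, mul_zero]
  · intro h
    exact absurd (Finset.mem_univ p) h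

theorem ip_add (S A B : Pt J V k → ZMod 2) : ip S (A + B) = ip S A + ip S B := by
  unfold ip
  rw [← Finset.sum_add_distrib]
  refine Finset.sum_congr rfl fun x _ => ?_
  rw [Pi.add_apply, mul_add]

end

end HBIG

open HBIG in
theorem p_BIG (hAND : T_AND) (hPAIRS : T_PAIRS) (hTRANS : T_TRANS) : T_BIG := by
  intro J V _ _ k r f R G c hr hf hc hmin hbig
  obtain ⟨x, y, hP, hne, hty, hxy, hx, hy⟩ := hPAIRS J V k r G hbig
  set b : Fin r → Pt J V k → ZMod 2 := fun i => ei (x i) + ei (y i) with hb
  have hparb : ∀ i t, par (b i) t = 0 := by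
    intro i t
    rw [hb]
    simp only
    rw [par_add, par_ei, par_ei, hty i]
    exact z2' _
  have hpars : ∀ (Z : Finset (Fin r)) t, par (∑ i ∈ Z, b i) t = 0 := by
    intro Z t
    induction Z using Finset.induction_on with
    | empty => rw [Finset.sum_empty, par_zero]
    | insert i Z hi ih => rw [Finset.sum_insert hi, par_add, ih, hparb, add_zero]
  -- values of the sums
  have hval : ∀ (Z : Finset (Fin r)) (p : Pt J V k), (∑ i ∈ Z, b i) p ≠ 0 →
      ∃ i ∈ Z, p = x i ∨ p = y i := by
    intro Z p h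
    by_contra hcon
    push Not at hcon
    apply h
    rw [Finset.sum_apply]
    refine Finset.sum_eq_zero fun i hi => ?_
    obtain ⟨h1, h2⟩ := hcon i hi
    show ei (x i) p + ei (y i) p = 0
    unfold ei
    rw [if_neg h1, if_neg h2, add_zero]
  have hvx : ∀ (Z : Finset (Fin r)) (i : Fin r), i ∈ Z → (∑ i ∈ Z, b i) (x i) = 1 := by
    intro Z i hi
    rw [Finset.sum_apply, Finset.sum_eq_single i]
    · show ei (x i) (x i) + ei (y i) (x i) = 1
      unfold ei
      rw [if_pos rfl, if_neg (hxy i i), add_zero]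
    · intro j _ hj
      show ei (x j) (x i) + ei (y j) (x i) = 0
      unfold ei
      rw [if_neg (fun h => hj (hx h).symm), if_neg (hxy i j), add_zero]
    · intro h
      exact absurd hi h
  have hvy : ∀ (Z : Finset (Fin r)) (i : Fin r), i ∈ Z → (∑ i ∈ Z, b i) (y i) = 1 := by
    intro Z i hi
    rw [Finset.sum_apply, Finset.sum_eq_single i]
    · show ei (x i) (y i) + ei (y i) (y i) = 1
      unfold ei
      rw [if_pos rfl, if_neg (fun h => hxy i i h.symm), zero_add]
    · intro j _ hj
      show ei (x j) (y i) + ei (y j) (y i) = 0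
      unfold ei
      rw [if_neg (fun h => hxy j i h.symm), if_neg (fun h => hj (hy h).symm), add_zero]
    · intro h
      exact absurd hi h
  have hF : ∀ Z : Finset (Fin r), Z.Nonempty → f (R + (G + ∑ i ∈ Z, b i)) = c := by
    intro Z hZ
    have hsub : ∀ p, (G + ∑ i ∈ Z, b i) p ≠ 0 → G p ≠ 0 := by
      intro p hp h0
      rw [Pi.add_apply, h0, zero_add] at hp
      obtain ⟨i, _, h | h⟩ := hval Z p hp
      · exact (hne i).1 (h ▸ h0)
      · exact (hne i).2 (h ▸ h0)
    refine hmin _ ?_ hsub ?_
    · intro t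
      rw [par_add, hpars, add_zero]
    · unfold sz
      refine Set.ncard_lt_ncard ?_ (Set.toFinite _)
      obtain ⟨i, hi⟩ := hZ
      refine ⟨fun p hp => hsub p hp, fun hss => ?_⟩
      have h1 : x i ∈ {p | G p ≠ 0} := (hne i).1
      have h2 := hss h1
      apply h2
      rw [Pi.add_apply, hvx Z i hi, z2 _ (hne i).1]
      exact z2' 1
  have hA1 : ind f (R + G) ≠ (if c = true then (1 : ℝ) else 0) := by
    unfold ind
    cases hfc : f (R + G) <;> cases hcc : c
    · exact absurd (hfc.trans hcc.symm) hc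
    · simp
    · simp
    · exact absurd (hfc.trans hcc.symm) hc
  obtain ⟨S, hS, hSb⟩ := hAND (Pt J V k) (ind f) r (R + G) b (if c = true then (1 : ℝ) else 0) hr
    hA1 (by
      intro Z hZ
      have h1 := hF Z hZ
      have h2 : R + G + ∑ i ∈ Z, b i = R + (G + ∑ i ∈ Z, b i) := add_assoc _ _ _
      rw [h2]
      unfold ind
      rw [h1])
  refine hTRANS J V k r f S x y hf hS hP fun i h => ?_
  have h1 := hSb i
  rw [hb] at h1
  simp only at h1
  rw [ip_add, ip_ei, ip_ei, h, z2'] at h1
  exact absurd h1 (by decide)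

end Pool.Agent.XLR
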