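import Pool.Agent.XLR.Targets

set_option autoImplicit false

/-!
# MP_9f5962_lc: disjoint copies of a set
-/

open scoped Classical

noncomputable section

namespace Pool.Agent.XLR

theorem p_COPY : T_COPY := by
  intro V _ m U W h
  have hc1 : Fintype.card (Fin m × U) = m * U.ncard := by
    rw [Fintype.card_prod, Fintype.card_fin, Set.ncard_eq_toFinset_card', Set.toFinset_card]
  have hc2 : Fintype.card (Wᶜ : Set V) = Fintype.card V - W.ncard := by
    rw [Fintype.card_compl_set, Set.ncard_eq_toFinset_card', Set.toFinset_card]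
  have hc3 : Fintype.card (Fin m × U) ≤ Fintype.card (Wᶜ : Set V) := by
    rw [hc1, hc2]
    omega
  obtain ⟨φ⟩ := Function.Embedding.nonempty_of_card_le hc3
  refine ⟨fun i v => if hv : v ∈ U then (φ (i, ⟨v, hv⟩) : V) else v, ?_, ?_⟩
  · intro i v hv
    simp only [hv, dif_pos]
    exact (φ (i, ⟨v, hv⟩)).2
  · intro i j v hv w hw he
    simp only [hv, hw, dif_pos] at he
    have h2 := φ.injective (Subtype.ext he)
    rw [Prod.mk.injEq, Subtype.mk.injEq] at h2
    exact h2

end Pool.Agent.XLR
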