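import Pool.Agent.XLR.Targets

set_option autoImplicit false

/-!
# MP_9f5962_lc: XOR functions of bounded arity, target DEC

An odd set distinguishes two points.
-/

open scoped Classical

noncomputable section

namespace Pool.Agent.XLR

theorem HDEC.ty_iff {J V : Type} {k : ℕ} {x y : Pt J V k} (h : ty x = ty y) :
    x.1 = y.1 ∧ ∀ a b, x.2 a = x.2 b ↔ y.2 a = y.2 b := by
  unfold ty at h
  rw [Prod.mk.injEq] at h
  refine ⟨h.1, fun a b => ?_⟩
  have h2 := congrFun (congrFun h.2 a) b
  simpa using h2

theorem p_DEC (hEXT : T_EXT) : T_DEC := by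
  intro J V _ _ k S b U hpar hip hvs
  by_contra hcon
  push Not at hcon
  have key : ∀ x y : Pt J V k, (∀ a, x.2 a ∈ U) → (∀ a, y.2 a ∈ U) → ty x = ty y →
      S x = S y := by
    intro x y hx hy hxy
    obtain ⟨h1, h2⟩ := HDEC.ty_iff hxy
    obtain ⟨τ, hτ1, hτ2⟩ := hEXT V (Fin k) x.2 y.2 U h2 hx hy
    refine hcon x y τ hx hy ?_ hτ2
    unfold mv
    exact Prod.ext h1 (funext hτ1)
  let s : J × (Fin k → Fin k → Bool) → ZMod 2 := fun t =>
    if h : ∃ x : Pt J V k, (∀ a, x.2 a ∈ U) ∧ ty x = t then S h.choose else 0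
  have hs : ∀ x : Pt J V k, S x * b x = s (ty x) * b x := by
    intro x
    by_cases hb : b x = 0
    · rw [hb, mul_zero, mul_zero]
    · have hx : ∀ a, x.2 a ∈ U := fun a => hvs ⟨x, hb, a, rfl⟩
      have hex : ∃ y : Pt J V k, (∀ a, y.2 a ∈ U) ∧ ty y = ty x := ⟨x, hx, rfl⟩
      have h1 : s (ty x) = S hex.choose := dif_pos hex
      rw [h1, key x hex.choose hx hex.choose_spec.1 hex.choose_spec.2.symm]
  have h0 : ip S b = ∑ t, s t * par b t := by
    unfold ip par
    calc ∑ x, S x * b x = ∑ x, ∑ t, (if ty x = t then s t * b x else 0) := by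
          apply Finset.sum_congr rfl
          intro x _
          rw [hs x, Finset.sum_ite_eq]
          simp
      _ = ∑ t, ∑ x, (if ty x = t then s t * b x else 0) := Finset.sum_comm
      _ = _ := by
          apply Finset.sum_congr rfl
          intro t _
          rw [Finset.mul_sum]
          apply Finset.sum_congr rfl
          intro x _
          split_ifs <;> simp
  rw [h0] at hip
  simp only [hpar, mul_zero, Finset.sum_const_zero] at hip
  exact zero_ne_one hip

end Pool.Agent.XLR
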