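import Pool.Agent.XLR.Targets

open scoped Classical

namespace Pool.Agent.XLR

theorem p_EXT : T_EXT := by
  intro V ι _ x y U hxy hx hy
  let p : U → Prop := fun v => ∃ a, x a = v.1
  let q : U → Prop := fun v => ∃ a, y a = v.1
  let g : {v : U // p v} → {v : U // q v} := fun v =>
    ⟨⟨y v.2.choose, hy _⟩, ⟨v.2.choose, rfl⟩⟩
  have hg : ∀ (v : {v : U // p v}) (a : ι), x a = v.1.1 → (g v).1.1 = y a := by
    intro v a ha
    have h1 : x v.2.choose = v.1.1 := v.2.choose_spec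
    have h2 : x v.2.choose = x a := h1.trans ha.symm
    exact (hxy _ _).1 h2
  have hgi : Function.Injective g := by
    intro v w h
    have h1 : (g v).1.1 = (g w).1.1 := by rw [h]
    have h2 : y v.2.choose = y w.2.choose := h1
    have h3 := (hxy _ _).2 h2
    have h4 : x v.2.choose = v.1.1 := v.2.choose_spec
    have h5 : x w.2.choose = w.1.1 := w.2.choose_spec
    apply Subtype.ext
    apply Subtype.ext
    rw [← h4, ← h5, h3]
  have hgs : Function.Surjective g := by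
    intro w
    obtain ⟨a, ha⟩ := w.2
    refine ⟨⟨⟨x a, hx a⟩, ⟨a, rfl⟩⟩, ?_⟩
    apply Subtype.ext
    apply Subtype.ext
    rw [← ha]
    exact hg ⟨⟨x a, hx a⟩, ⟨a, rfl⟩⟩ a rfl
  let e : {v : U // p v} ≃ {v : U // q v} := Equiv.ofBijective g ⟨hgi, hgs⟩
  let s : Equiv.Perm U := e.extendSubtype
  refine ⟨Equiv.Perm.ofSubtype (p := fun v => v ∈ U) s, ?_, ?_⟩
  · intro a
    rw [Equiv.Perm.ofSubtype_apply_of_mem s (hx a)]
    have h1 : s ⟨x a, hx a⟩ = (e ⟨⟨x a, hx a⟩, ⟨a, rfl⟩⟩ : U) :=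
      Equiv.extendSubtype_apply_of_mem e ⟨x a, hx a⟩ ⟨a, rfl⟩
    rw [h1]
    exact hg ⟨⟨x a, hx a⟩, ⟨a, rfl⟩⟩ a rfl
  · intro v hv
    exact Equiv.Perm.ofSubtype_apply_of_not_mem s hv

end Pool.Agent.XLR
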