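import Pool.Agent.XLR.Targets

set_option autoImplicit false

open scoped Classical

noncomputable section

namespace Pool.Agent.XLR

theorem HFIN_rank_log (m : ℕ) (h : m ≠ 0) : m < 2 ^ (⌊Real.logb 2 (m : ℝ)⌋₊ + 1) := by
  have h1 : (m : ℝ) = (2 : ℝ) ^ (Real.logb 2 (m : ℝ)) := by
    rw [Real.rpow_logb (by norm_num) (by norm_num)]
    exact_mod_cast Nat.pos_of_ne_zero h
  have h2 : Real.logb 2 (m : ℝ) < ((⌊Real.logb 2 (m : ℝ)⌋₊ + 1 : ℕ) : ℝ) := by
    push_cast
    exact Nat.lt_floor_add_one _
  have h3 : (m : ℝ) < (2 : ℝ) ^ (((⌊Real.logb 2 (m : ℝ)⌋₊ + 1 : ℕ) : ℝ)) := by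
    calc (m : ℝ) = (2 : ℝ) ^ (Real.logb 2 (m : ℝ)) := h1
      _ < _ := Real.rpow_lt_rpow_of_exponent_lt (by norm_num) h2
  rw [Real.rpow_natCast] at h3
  exact_mod_cast h3

theorem HFIN_logb_nonneg (m : ℕ) : 0 ≤ Real.logb 2 (m : ℝ) := by
  rcases Nat.eq_zero_or_pos m with h | h
  · rw [h]; simp
  · exact Real.logb_nonneg (by norm_num) (by exact_mod_cast h)

theorem p_FIN (hNOMR : T_NOMR) (hNOMC : T_NOMC) (hPROT : T_PROT) : T_FIN := by
  intro k q
  set K : ℕ := k * (q * 2 ^ (k * k)) * (1 + (k * k) ^ k) with hK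
  -- constant for the second part
  set C1 : ℝ := (K : ℝ) * 3 ^ (k + 1) + k with hC1
  set C2 : ℝ := (q : ℝ) * (2 ^ (k * (k + 1)) * C1 ^ k) + q * (2 ^ (k * (k + 1)) * C1 ^ k) + q + 1
    with hC2
  have hC1n : 0 ≤ C1 := by positivity
  have hC2n : 0 ≤ C2 := by positivity
  refine ⟨C1 + C2, ?_⟩
  intro n X _ _ f hX hf
  set l : ℝ := Real.logb 2 ((xmat f).rank : ℝ) with hl
  have hl0 : 0 ≤ l := HFIN_logb_nonneg _
  have hsecond : (∃ A B : X → ZMod 2, (∀ x, opar n A x = opar n B x) ∧ f A ≠ f B) →
      (n : ℝ) ≤ C1 * (l + 1) ^ (k + 1) := by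
    rintro ⟨A, B, hAB, hne⟩
    have hone : (1 : ℝ) ≤ (l + 1) ^ (k + 1) := one_le_pow₀ (by linarith)
    by_cases hkn : k ≤ n
    · set r : ℕ := ⌊l⌋₊ + 1 with hr
      have hlt : ¬ nb q k r ≤ n := by
        intro hle
        have h1 := hNOMR q k n r X f A B hX hkn (by omega) hf hAB hne hle
        have h2 : (xmat f).rank ≠ 0 := by
          intro h0
          rw [h0] at h1
          have : 0 < 2 ^ r := by positivity
          omega
        have h3 := HFIN_rank_log (xmat f).rank h2
        rw [← hl, ← hr] at h3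
        omega
      push Not at hlt
      have hnb : nb q k r ≤ K * (2 * r + 1) ^ (k + 1) := by
        unfold nb eb
        rw [hK]
        have e1 : (k * k * (2 * r + 1)) ^ k = (k * k) ^ k * (2 * r + 1) ^ k := by
          rw [mul_pow]
        rw [e1, pow_succ]
        have e2 : 1 ≤ (2 * r + 1) ^ k := Nat.one_le_pow _ _ (by omega)
        have e3 : q * 2 ^ (k * k) + q * 2 ^ (k * k) * ((k * k) ^ k * (2 * r + 1) ^ k) ≤
            (q * 2 ^ (k * k)) * (1 + (k * k) ^ k) * (2 * r + 1) ^ k := by
          have := Nat.mul_le_mul_left (q * 2 ^ (k * k)) e2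
          calc q * 2 ^ (k * k) + q * 2 ^ (k * k) * ((k * k) ^ k * (2 * r + 1) ^ k)
              ≤ q * 2 ^ (k * k) * (2 * r + 1) ^ k + 
                q * 2 ^ (k * k) * ((k * k) ^ k * (2 * r + 1) ^ k) := by linarith
            _ = _ := by ring
        calc k * (q * 2 ^ (k * k) + q * 2 ^ (k * k) * ((k * k) ^ k * (2 * r + 1) ^ k)) * (2 * r + 1)
            ≤ k * ((q * 2 ^ (k * k)) * (1 + (k * k) ^ k) * (2 * r + 1) ^ k) * (2 * r + 1) :=
              Nat.mul_le_mul_right _ (Nat.mul_le_mul_left _ e3)
          _ = k * (q * 2 ^ (k * k)) * (1 + (k * k) ^ k) * ((2 * r + 1) ^ k * (2 * r + 1)) := by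
              ring
      have hr2 : ((2 * r + 1 : ℕ) : ℝ) ≤ 3 * (l + 1) := by
        have : (⌊l⌋₊ : ℝ) ≤ l := Nat.floor_le hl0
        rw [hr]
        push_cast
        linarith
      have h4 : (n : ℝ) ≤ (K : ℝ) * ((2 * r + 1 : ℕ) : ℝ) ^ (k + 1) := by
        have : n ≤ K * (2 * r + 1) ^ (k + 1) := le_trans hlt.le hnb
        exact_mod_cast this
      calc (n : ℝ) ≤ (K : ℝ) * ((2 * r + 1 : ℕ) : ℝ) ^ (k + 1) := h4
        _ ≤ (K : ℝ) * (3 * (l + 1)) ^ (k + 1) := by
            refine mul_le_mul_of_nonneg_left ?_ (by positivity)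
            exact pow_le_pow_left₀ (by positivity) hr2 _
        _ = (K : ℝ) * 3 ^ (k + 1) * (l + 1) ^ (k + 1) := by rw [mul_pow]; ring
        _ ≤ C1 * (l + 1) ^ (k + 1) := by
            refine mul_le_mul_of_nonneg_right ?_ (by positivity)
            rw [hC1]
            have : (0 : ℝ) ≤ (k : ℝ) := by positivity
            linarith
    · push Not at hkn
      calc (n : ℝ) ≤ k := by exact_mod_cast hkn.le
        _ ≤ C1 * 1 := by
            rw [hC1, mul_one]
            have : (0 : ℝ) ≤ (K : ℝ) * 3 ^ (k + 1) := by positivity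
            linarith
        _ ≤ C1 * (l + 1) ^ (k + 1) := mul_le_mul_of_nonneg_left hone hC1n
  refine ⟨?_, ?_⟩
  · by_cases hpar : ∃ A B : X → ZMod 2, (∀ x, opar n A x = opar n B x) ∧ f A ≠ f B
    · -- the trivial protocol
      refine ⟨Fintype.card X + 1, ?_, ?_⟩
      · have hn := hsecond hpar
        have hc : (Fintype.card X : ℝ) ≤ q * ((n : ℝ) ^ k + 1) := by
          exact_mod_cast hNOMC q k n X hX
        have h1 : (n : ℝ) ^ k ≤ C1 ^ k * (l + 1) ^ (k * (k + 1)) := by
          calc (n : ℝ) ^ k ≤ (C1 * (l + 1) ^ (k + 1)) ^ k := pow_le_pow_left₀ (by positivity) hn _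
            _ = C1 ^ k * (l + 1) ^ (k * (k + 1)) := by
                rw [mul_pow, ← pow_mul, mul_comm (k + 1) k]
        have h2 : (l + 1) ^ (k * (k + 1)) ≤ 2 ^ (k * (k + 1)) * (l ^ (k * (k + 1)) + 1) := by
          rcases le_total l 1 with h | h
          · calc (l + 1) ^ (k * (k + 1)) ≤ 2 ^ (k * (k + 1)) :=
                  pow_le_pow_left₀ (by positivity) (by linarith) _
              _ = 2 ^ (k * (k + 1)) * 1 := by ring
              _ ≤ 2 ^ (k * (k + 1)) * (l ^ (k * (k + 1)) + 1) := by
                  refine mul_le_mul_of_nonneg_left ?_ (by positivity)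
                  have : 0 ≤ l ^ (k * (k + 1)) := by positivity
                  linarith
          · calc (l + 1) ^ (k * (k + 1)) ≤ (2 * l) ^ (k * (k + 1)) :=
                  pow_le_pow_left₀ (by positivity) (by linarith) _
              _ = 2 ^ (k * (k + 1)) * l ^ (k * (k + 1)) := by rw [mul_pow]
              _ ≤ 2 ^ (k * (k + 1)) * (l ^ (k * (k + 1)) + 1) := by
                  refine mul_le_mul_of_nonneg_left ?_ (by positivity)
                  linarith
        have h3 : (n : ℝ) ^ k ≤ C1 ^ k * (2 ^ (k * (k + 1)) * (l ^ (k * (k + 1)) + 1)) :=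
          le_trans h1 (mul_le_mul_of_nonneg_left h2 (by positivity))
        have hlp : 0 ≤ l ^ (k * (k + 1)) := by positivity
        have hc1p : 0 ≤ C1 ^ k * 2 ^ (k * (k + 1)) := by positivity
        push_cast
        have h4 : (Fintype.card X : ℝ) + 1 ≤
            q * (C1 ^ k * (2 ^ (k * (k + 1)) * (l ^ (k * (k + 1)) + 1)) + 1) + 1 := by
          have hq : (0 : ℝ) ≤ q := by positivity
          nlinarith [mul_le_mul_of_nonneg_left h3 hq]
        refine le_trans h4 ?_
        have e1 : (q : ℝ) * (C1 ^ k * (2 ^ (k * (k + 1)) * (l ^ (k * (k + 1)) + 1)) + 1) + 1 =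
            (q * (2 ^ (k * (k + 1)) * C1 ^ k)) * l ^ (k * (k + 1)) +
            (q * (2 ^ (k * (k + 1)) * C1 ^ k) + q + 1) := by ring
        rw [e1]
        have hq2 : (0 : ℝ) ≤ q * (2 ^ (k * (k + 1)) * C1 ^ k) := by positivity
        have hq3 : (0 : ℝ) ≤ q := by positivity
        have e2 : (q * (2 ^ (k * (k + 1)) * C1 ^ k)) * l ^ (k * (k + 1)) ≤
            (C1 + C2) * l ^ (k * (k + 1)) := by
          refine mul_le_mul_of_nonneg_right ?_ hlp
          rw [hC2]
          linarith
        have e3 : (q * (2 ^ (k * (k + 1)) * C1 ^ k) + q + 1) ≤ C1 + C2 := by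
          rw [hC2]
          linarith
        linarith
      · exact hPROT X X (fun A => A) f (fun _ _ => rfl) (fun A B h => by rw [h])
    · push Not at hpar
      -- protocol through the parities
      set ι := MulAction.orbitRel.Quotient (Equiv.Perm (Fin n)) X with hι
      have : Fintype ι := Fintype.ofFinite _
      refine ⟨Fintype.card ι + 1, ?_, ?_⟩
      · have hcard : Fintype.card ι ≤ q := by
          rw [← Nat.card_eq_fintype_card]
          exact hX.1
        have h1 : ((Fintype.card ι + 1 : ℕ) : ℝ) ≤ (q : ℝ) + 1 := by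
          exact_mod_cast Nat.succ_le_succ hcard
        have h2 : (q : ℝ) + 1 ≤ C1 + C2 := by
          have : (0 : ℝ) ≤ q * (2 ^ (k * (k + 1)) * C1 ^ k) := by positivity
          rw [hC2]
          linarith
        have h3 : 0 ≤ (C1 + C2) * l ^ (k * (k + 1)) := by positivity
        linarith
      · refine hPROT X ι (fun A o => ∑ y : X, if (Quotient.mk'' y : ι) = o then A y else 0) f ?_ ?_
        · intro A B
          funext o
          simp only [Pi.add_apply]
          rw [← Finset.sum_add_distrib]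
          refine Finset.sum_congr rfl ?_
          intro y _
          split_ifs <;> simp
        · intro A B h
          refine hpar A B ?_
          intro x
          have hx := congrFun h (Quotient.mk'' x : ι)
          have key : ∀ D : X → ZMod 2, opar n D x =
              ∑ y : X, if (Quotient.mk'' y : ι) = Quotient.mk'' x then D y else 0 := by
            intro D
            unfold opar
            refine Finset.sum_congr rfl ?_
            intro y _
            have hiff : (y ∈ MulAction.orbit (Equiv.Perm (Fin n)) x) ↔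
                ((Quotient.mk'' y : ι) = Quotient.mk'' x) := by
              rw [Quotient.eq'']
              rfl
            by_cases hy : y ∈ MulAction.orbit (Equiv.Perm (Fin n)) x
            · rw [if_pos hy, if_pos (hiff.1 hy)]
            · rw [if_neg hy, if_neg (fun h' => hy (hiff.2 h'))]
          rw [key A, key B]
          exact hx
  · intro h
    refine le_trans (hsecond h) ?_
    refine mul_le_mul_of_nonneg_right ?_ (by positivity)
    linarith

end Pool.Agent.XLR
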