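import Pool.Agent.XLR.Targets

set_option autoImplicit false

open scoped Classical

noncomputable section

namespace Pool.Agent.XLR

theorem HFOUR_zmod2 (u : ZMod 2) : u = 0 ∨ u = 1 := by
  revert u; decide

theorem HFOUR_ip_add {X : Type} [Fintype X] (S A B : X → ZMod 2) :
    ip S (A + B) = ip S A + ip S B := by
  unfold ip
  rw [← Finset.sum_add_distrib]
  exact Finset.sum_congr rfl (fun x _ => by simp [mul_add])

theorem HFOUR_ip_add_left {X : Type} [Fintype X] (S T A : X → ZMod 2) :
    ip (S + T) A = ip S A + ip T A := by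
  unfold ip
  rw [← Finset.sum_add_distrib]
  exact Finset.sum_congr rfl (fun x _ => by simp [add_mul])

theorem HFOUR_sgn_add (u v : ZMod 2) :
    (if u + v = 0 then (1 : ℝ) else -1) =
      (if u = 0 then (1 : ℝ) else -1) * (if v = 0 then (1 : ℝ) else -1) := by
  rcases HFOUR_zmod2 u with h | h <;> rcases HFOUR_zmod2 v with h' | h' <;> subst h <;> subst h'
  · simp
  · simp
  · simp
  · have : (1 : ZMod 2) + 1 = 0 := by decide
    rw [if_pos this]
    simp

theorem HFOUR_chi_add {X : Type} [Fintype X] (S A B : X → ZMod 2) :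
    chi S (A + B) = chi S A * chi S B := by
  unfold chi
  rw [HFOUR_ip_add]
  exact HFOUR_sgn_add _ _

theorem HFOUR_chi_add_left {X : Type} [Fintype X] (S T A : X → ZMod 2) :
    chi (S + T) A = chi S A * chi T A := by
  unfold chi
  rw [HFOUR_ip_add_left]
  exact HFOUR_sgn_add _ _

theorem HFOUR_ip_comm {X : Type} [Fintype X] (S A : X → ZMod 2) : ip S A = ip A S := by
  unfold ip
  exact Finset.sum_congr rfl (fun x _ => mul_comm _ _)

theorem HFOUR_chi_comm {X : Type} [Fintype X] (S A : X → ZMod 2) : chi S A = chi A S := by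
  unfold chi
  rw [HFOUR_ip_comm]

theorem HFOUR_chi_zero {X : Type} [Fintype X] (S : X → ZMod 2) : chi S 0 = 1 := by
  unfold chi ip
  simp

theorem HFOUR_chi_sum {X : Type} [Fintype X] {ι : Type} (S : X → ZMod 2) (b : ι → X → ZMod 2)
    (Z : Finset ι) : chi S (∑ i ∈ Z, b i) = ∏ i ∈ Z, chi S (b i) := by
  induction Z using Finset.induction_on with
  | empty => simp [HFOUR_chi_zero]
  | insert i Z hi ih => rw [Finset.sum_insert hi, Finset.prod_insert hi, HFOUR_chi_add, ih]

theorem HFOUR_orth {X : Type} [Fintype X] (D : X → ZMod 2) (hD : D ≠ 0) :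
    ∑ S : X → ZMod 2, chi S D = 0 := by
  obtain ⟨x, hx⟩ : ∃ x, D x ≠ 0 := by
    by_contra h
    push Not at h
    exact hD (funext h)
  have hx1 : D x = 1 := by
    rcases HFOUR_zmod2 (D x) with h | h
    · exact absurd h hx
    · exact h
  have hchi : chi (Pi.single x (1 : ZMod 2)) D = -1 := by
    unfold chi ip
    have : (∑ y, (Pi.single x (1 : ZMod 2) : X → ZMod 2) y * D y) = 1 := by
      rw [Finset.sum_eq_single x]
      · simp [hx1]
      · intro y _ hy
        simp [Pi.single_eq_of_ne hy]
      · intro h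
        exact absurd (Finset.mem_univ x) h
    rw [this]
    simp
  have h1 : ∑ S : X → ZMod 2, chi S D = ∑ S : X → ZMod 2, chi (S + Pi.single x (1 : ZMod 2)) D :=
    (Equiv.sum_comp (Equiv.addRight (Pi.single x (1 : ZMod 2) : X → ZMod 2))
      (fun S => chi S D)).symm
  have h2 : ∑ S : X → ZMod 2, chi (S + Pi.single x (1 : ZMod 2)) D =
      - ∑ S : X → ZMod 2, chi S D := by
    rw [← Finset.sum_neg_distrib]
    refine Finset.sum_congr rfl ?_
    intro S _
    rw [HFOUR_chi_add_left, hchi]
    ring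
  linarith

theorem HFOUR_inv {X : Type} [Fintype X] (F : (X → ZMod 2) → ℝ) (A : X → ZMod 2) :
    ∑ S : X → ZMod 2, fh F S * chi S A = (Fintype.card (X → ZMod 2) : ℝ) * F A := by
  unfold fh
  have h1 : ∀ S : X → ZMod 2, (∑ B, F B * chi S B) * chi S A = ∑ B, F B * chi S (B + A) := by
    intro S
    rw [Finset.sum_mul]
    refine Finset.sum_congr rfl ?_
    intro B _
    rw [HFOUR_chi_add]
    ring
  rw [Finset.sum_congr rfl (fun S _ => h1 S), Finset.sum_comm]
  have h2 : ∀ B : X → ZMod 2, ∑ S : X → ZMod 2, F B * chi S (B + A) =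
      if B = A then (Fintype.card (X → ZMod 2) : ℝ) * F A else 0 := by
    intro B
    rw [← Finset.mul_sum]
    split_ifs with h
    · subst h
      have h0 : B + B = 0 := by
        funext x
        have : ∀ u : ZMod 2, u + u = 0 := by decide
        exact this _
      rw [h0, Finset.sum_congr rfl (fun S _ => HFOUR_chi_zero S)]
      simp
      ring
    · rw [HFOUR_orth (B + A)]
      · ring
      · intro h0
        apply h
        funext x
        have h3 := congrFun h0 x
        simp only [Pi.add_apply, Pi.zero_apply] at h3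
        have : ∀ u v : ZMod 2, u + v = 0 → u = v := by decide
        exact this _ _ h3
  rw [Finset.sum_congr rfl (fun B _ => h2 B)]
  simp

theorem p_FOUR : T_FOUR := by
  intro X _ F r a b h
  have hN : (Fintype.card (X → ZMod 2) : ℝ) ≠ 0 := by
    have : 0 < Fintype.card (X → ZMod 2) := Fintype.card_pos
    positivity
  have key : (Fintype.card (X → ZMod 2) : ℝ) *
      ∑ Z : Finset (Fin r), (-1 : ℝ) ^ Z.card * F (a + ∑ i ∈ Z, b i) =
      ∑ S : X → ZMod 2, fh F S * chi S a * ∏ i, (1 - chi S (b i)) := by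
    rw [Finset.mul_sum]
    have h1 : ∀ Z : Finset (Fin r), (Fintype.card (X → ZMod 2) : ℝ) *
        ((-1 : ℝ) ^ Z.card * F (a + ∑ i ∈ Z, b i)) =
        ∑ S : X → ZMod 2, fh F S * chi S a * ∏ i ∈ Z, (-chi S (b i)) := by
      intro Z
      have h2 := HFOUR_inv F (a + ∑ i ∈ Z, b i)
      calc (Fintype.card (X → ZMod 2) : ℝ) * ((-1 : ℝ) ^ Z.card * F (a + ∑ i ∈ Z, b i))
          = (-1 : ℝ) ^ Z.card * ((Fintype.card (X → ZMod 2) : ℝ) * F (a + ∑ i ∈ Z, b i)) := by
            ring
        _ = (-1 : ℝ) ^ Z.card * ∑ S : X → ZMod 2, fh F S * chi S (a + ∑ i ∈ Z, b i) := by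
            rw [h2]
        _ = _ := by
            rw [Finset.mul_sum]
            refine Finset.sum_congr rfl ?_
            intro S _
            rw [HFOUR_chi_add, HFOUR_chi_sum]
            have h3 : ∏ i ∈ Z, (-chi S (b i)) = (-1 : ℝ) ^ Z.card * ∏ i ∈ Z, chi S (b i) := by
              rw [Finset.prod_neg]
            rw [h3]
            ring
    rw [Finset.sum_congr rfl (fun Z _ => h1 Z), Finset.sum_comm]
    refine Finset.sum_congr rfl ?_
    intro S _
    rw [← Finset.mul_sum]
    congr 1
    have h4 : ∏ i, (1 - chi S (b i)) = ∏ i, (1 + (-chi S (b i))) :=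
      Finset.prod_congr rfl (fun i _ => by ring)
    rw [h4, Finset.prod_one_add]
    rw [← Finset.powerset_univ]
  have hne : ∑ S : X → ZMod 2, fh F S * chi S a * ∏ i, (1 - chi S (b i)) ≠ 0 := by
    rw [← key]
    exact mul_ne_zero hN h
  obtain ⟨S, -, hS⟩ := Finset.exists_ne_zero_of_sum_ne_zero hne
  refine ⟨S, ?_, ?_⟩
  · intro h0
    apply hS
    rw [h0]
    ring
  · intro i
    rcases HFOUR_zmod2 (ip S (b i)) with h0 | h0
    · exfalso
      apply hS
      have : ∏ i, (1 - chi S (b i)) = 0 := by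
        refine Finset.prod_eq_zero (Finset.mem_univ i) ?_
        unfold chi
        rw [if_pos h0]
        ring
      rw [this]
      ring
    · exact h0

end Pool.Agent.XLR
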