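import Pool.Agent.XLR.Targets

set_option autoImplicit false

open scoped Classical

noncomputable section

namespace Pool.Agent.XLR

theorem p_MAIN (hBIG : T_BIG) (hSONE : T_SONE) (hSTWO : T_STWO) (hMINI : T_MINI) : T_MAIN := by
  intro J V _ _ k r f A B hr hf hAB hne hn
  set Q := Fintype.card J * 2 ^ (k * k) with hQ
  set E := eb (Fintype.card J) k r with hE
  have hnb : k * Q + 2 * r * (k * E) ≤ Fintype.card V := by
    refine le_trans ?_ hn
    unfold nb
    rw [← hQ, ← hE]
    nlinarith [Nat.zero_le (k * E), Nat.zero_le (k * Q * r), Nat.zero_le (k * E * r)]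
  have hnb2 : k * E + 2 * r * (k * Q) ≤ Fintype.card V := by
    refine le_trans ?_ hn
    unfold nb
    rw [← hQ, ← hE]
    nlinarith [Nat.zero_le (k * E), Nat.zero_le (k * Q * r), Nat.zero_le (k * E * r)]
  obtain ⟨-, R, hRp, hRs⟩ := hMINI J V k A
  have hvR : (vs R).ncard ≤ k * Q := le_trans (hMINI J V k R).1 (Nat.mul_le_mul_left _ hRs)
  by_cases h1 : ∃ G : Pt J V k → ZMod 2, (∀ t, par G t = 0) ∧ Disjoint (vs R) (vs G) ∧
      f (R + G) ≠ f R
  · -- minimal G
    have hex : ∃ m : ℕ, ∃ G : Pt J V k → ZMod 2, sz G = m ∧ (∀ t, par G t = 0) ∧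
        Disjoint (vs R) (vs G) ∧ f (R + G) ≠ f R := by
      obtain ⟨G, hG⟩ := h1
      exact ⟨sz G, G, rfl, hG⟩
    obtain ⟨G, hGs, hG0, hGd, hGf⟩ := Nat.find_spec hex
    have hmin : ∀ m, m < Nat.find hex → ¬ ∃ G : Pt J V k → ZMod 2, sz G = m ∧
        (∀ t, par G t = 0) ∧ Disjoint (vs R) (vs G) ∧ f (R + G) ≠ f R :=
      fun m hm => Nat.find_min hex hm
    by_cases hbig : E < sz G
    · refine hBIG J V k r f R G (f R) hr hf hGf ?_ hbig
      intro G' hp hs hlt
      by_contra hcon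
      refine hmin (sz G') (by rw [← hGs]; exact hlt) ⟨G', rfl, ?_, ?_, hcon⟩
      · intro t
        rw [hp t, hG0 t]
      · refine Set.disjoint_of_subset_right ?_ hGd
        rintro v ⟨x, hx, a, ha⟩
        exact ⟨x, hs x hx, a, ha⟩
    · push Not at hbig
      refine hSONE J V k r f R G hr hf hG0 hGd hGf ?_
      have hvG : (vs G).ncard ≤ k * E := le_trans (hMINI J V k G).1 (Nat.mul_le_mul_left _ hbig)
      refine le_trans ?_ hnb
      exact Nat.add_le_add hvR (Nat.mul_le_mul_left _ hvG)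
  · push Not at h1
    have hex : ∃ m : ℕ, ∃ B' : Pt J V k → ZMod 2, sz B' = m ∧ (∀ t, par B' t = par R t) ∧
        f B' ≠ f R := by
      by_cases hA : f A = f R
      · refine ⟨sz B, B, rfl, ?_, ?_⟩
        · intro t
          rw [← hAB t, hRp t]
        · intro h
          exact hne (hA.trans h.symm)
      · exact ⟨sz A, A, rfl, fun t => (hRp t).symm, hA⟩
    obtain ⟨B', hBs, hBp, hBf⟩ := Nat.find_spec hex
    have hmin : ∀ m, m < Nat.find hex → ¬ ∃ B' : Pt J V k → ZMod 2, sz B' = m ∧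
        (∀ t, par B' t = par R t) ∧ f B' ≠ f R :=
      fun m hm => Nat.find_min hex hm
    by_cases hbig : E < sz B'
    · refine hBIG J V k r f 0 B' (f R) hr hf (by rw [zero_add]; exact hBf) ?_ hbig
      intro G' hp hs hlt
      by_contra hcon
      rw [zero_add] at hcon
      refine hmin (sz G') (by rw [← hBs]; exact hlt) ⟨G', rfl, ?_, hcon⟩
      intro t
      rw [hp t, hBp t]
    · push Not at hbig
      refine hSTWO J V k r f R B' (f R) hr hf hBp hBf h1 ?_
      have hvB : (vs B').ncard ≤ k * E := le_trans (hMINI J V k B').1 (Nat.mul_le_mul_left _ hbig)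
      refine le_trans ?_ hnb2
      exact Nat.add_le_add hvB (Nat.mul_le_mul_left _ hvR)

end Pool.Agent.XLR
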