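import Pool.Agent.XLR.Targets

set_option autoImplicit false

open scoped Classical

noncomputable section

namespace Pool.Agent.XLR

namespace HMINI

/-- Every element of the field of two elements is `0` or `1`. -/
theorem zmod_two (z : ZMod 2) (hz : z ≠ 0) : z = 1 := by
  revert hz
  revert z
  decide

/-- The number of vertices used by a configuration. -/
theorem vs_le {J V : Type} [Fintype J] [Fintype V] {k : ℕ} (A : Pt J V k → ZMod 2) :
    (vs A).ncard ≤ k * sz A := by
  set S : Finset (Pt J V k) := Finset.univ.filter fun x => A x ≠ 0 with hS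
  have h1 : vs A = ((S ×ˢ (Finset.univ : Finset (Fin k))).image fun p => p.1.2 p.2 :
      Finset V) := by
    ext v
    simp only [vs, Finset.coe_image, Finset.coe_product, Set.mem_image, Set.mem_prod,
      Finset.mem_coe]
    constructor
    · rintro ⟨x, hx, a, ha⟩
      exact ⟨(x, a), ⟨by simp [hS, hx], by simp⟩, ha⟩
    · rintro ⟨⟨x, a⟩, ⟨hx, _⟩, ha⟩
      exact ⟨x, by simpa [hS] using hx, a, ha⟩
  have h2 : sz A = S.card := by
    unfold sz
    rw [← Set.ncard_coe_finset]
    congr 1
    ext x
    simp [hS]
  rw [h1, Set.ncard_coe_finset, h2]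
  refine Finset.card_image_le.trans ?_
  rw [Finset.card_product, Finset.card_univ, Fintype.card_fin, mul_comm]

/-- A configuration with the same parities and at most one point of each type. -/
theorem exists_min {J V : Type} [Fintype J] [Fintype V] {k : ℕ} (A : Pt J V k → ZMod 2) :
    ∃ R : Pt J V k → ZMod 2, (∀ t, par R t = par A t) ∧
      sz R ≤ Fintype.card J * 2 ^ (k * k) := by
  have h1 : ∀ t, par A t ≠ 0 → ∃ x : Pt J V k, ty x = t := by
    intro t ht
    by_contra hc
    push Not at hc
    refine ht ?_
    unfold par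
    exact Finset.sum_eq_zero fun x _ => if_neg (hc x)
  rcases isEmpty_or_nonempty (Pt J V k) with he | he
  · refine ⟨A, fun t => rfl, ?_⟩
    have h2 : sz A = 0 := by
      unfold sz
      rw [Set.ncard_eq_zero]
      ext x
      exact he.elim x
    rw [h2]
    exact Nat.zero_le _
  choose! rep hrep using h1
  obtain ⟨R, hR⟩ : ∃ R : Pt J V k → ZMod 2, ∀ x,
      R x = if par A (ty x) ≠ 0 ∧ x = rep (ty x) then 1 else 0 := ⟨_, fun x => rfl⟩
  refine ⟨R, fun t => ?_, ?_⟩
  · have hp : par R t = ∑ x, if ty x = t then R x else 0 := rfl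
    rw [hp]
    by_cases ht : par A t = 0
    · rw [ht]
      refine Finset.sum_eq_zero fun x _ => ?_
      split_ifs with h2
      · rw [hR, if_neg]
        rintro ⟨h3, _⟩
        exact h3 (h2 ▸ ht)
      · rfl
    · rw [zmod_two _ ht, Finset.sum_eq_single (rep t)]
      · rw [if_pos (hrep t ht), hR, if_pos]
        rw [hrep t ht]
        exact ⟨ht, rfl⟩
      · intro x _ hx
        split_ifs with h2
        · rw [hR, if_neg]
          rintro ⟨_, h3⟩
          exact hx (h2 ▸ h3)
        · rfl
      · intro h
        exact absurd (Finset.mem_univ _) h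
  · have h2 : Fintype.card (J × (Fin k → Fin k → Bool)) = Fintype.card J * 2 ^ (k * k) := by
      rw [Fintype.card_prod, Fintype.card_fun, Fintype.card_fun, Fintype.card_fin,
        Fintype.card_bool, ← pow_mul]
    rw [← h2, ← Finset.card_univ, ← Set.ncard_coe_finset]
    unfold sz
    refine Set.ncard_le_ncard_of_injOn ty (fun x _ => by simp) ?_ (Set.toFinite _)
    have h3 : ∀ x, R x ≠ 0 → x = rep (ty x) := by
      intro x hx
      by_contra hc
      exact hx (by rw [hR, if_neg fun h => hc h.2])
    intro x hx y hy hxy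
    rw [h3 x hx, h3 y hy, hxy]

end HMINI

theorem p_MINI : T_MINI := fun _ _ _ _ _ A => ⟨HMINI.vs_le A, HMINI.exists_min A⟩

end Pool.Agent.XLR
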