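import Pool.Agent.XLR.Targets

set_option autoImplicit false

/-!
# NEWT: 0/1 valued functions with vanishing differences
-/

open scoped Classical

noncomputable section

namespace Pool.Agent.XLR

namespace HNEWT

open Polynomial Finset

/-- differences of order `r` of a polynomial of degree less than `r` -/
lemma poly_rel (P : ℝ[X]) (r : ℕ) (hP : P.natDegree < r) (m : ℕ) :
    ∑ j ∈ range (r + 1), (-1 : ℝ) ^ j * (r.choose j : ℝ) * P.eval ((m : ℝ) + j) = 0 := by
  have h1 := congrFun (Polynomial.fwdDiff_iter_eq_zero_of_degree_lt hP) (m : ℝ)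
  rw [fwdDiff_iter_eq_sum_shift] at h1
  have h2 : ∀ j ∈ range (r + 1), (-1 : ℝ) ^ j * (r.choose j : ℝ) * P.eval ((m : ℝ) + j)
      = (-1 : ℝ) ^ r * (((-1 : ℤ) ^ (r - j) * (r.choose j : ℤ)) • P.eval ((m : ℝ) + j • (1 : ℝ))) := by
    intro j hj
    rw [mem_range] at hj
    have hj' : j ≤ r := Nat.lt_succ_iff.mp hj
    have e : (-1 : ℝ) ^ j = (-1 : ℝ) ^ r * (-1 : ℝ) ^ (r - j) := by
      rw [← pow_add]
      have : r + (r - j) = j + 2 * (r - j) := by omega
      rw [this, pow_add, pow_mul]
      norm_num
    rw [e, zsmul_eq_mul]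
    push_cast
    rw [nsmul_eq_mul, mul_one]
    ring
  rw [sum_congr rfl h2, ← mul_sum, h1]
  simp

end HNEWT

open Polynomial Finset in
theorem p_NEWT : T_NEWT := by
  intro r phi hr h01 hrel
  set P : ℝ[X] := Lagrange.interpolate (range r) (fun i : ℕ => (i : ℝ)) phi with hPdef
  have hinj : Set.InjOn (fun i : ℕ => (i : ℝ)) (range r : Set ℕ) :=
    fun a _ b _ hab => Nat.cast_injective hab
  have hdeg : P.natDegree < r := by
    by_cases hP0 : P = 0
    · rw [hP0]; simpa using hr
    · rw [natDegree_lt_iff_degree_lt hP0]
      have := Lagrange.degree_interpolate_lt phi hinj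
      rwa [card_range] at this
  have hval : ∀ m, m ≤ 2 * r → phi m = P.eval (m : ℝ) := by
    intro m
    induction m using Nat.strong_induction_on with
    | _ m ih =>
      intro hm
      by_cases hmr : m < r
      · rw [hPdef]
        exact (Lagrange.eval_interpolate_at_node phi hinj (mem_range.mpr hmr)).symm
      · push Not at hmr
        obtain ⟨q, rfl⟩ := Nat.exists_eq_add_of_le hmr
        have hq : q ≤ r := by omega
        have e1 := hrel q hq
        have e2 := HNEWT.poly_rel P r hdeg q
        rw [sum_range_succ] at e1 e2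
        have e3 : ∑ j ∈ range r, (-1 : ℝ) ^ j * (r.choose j : ℝ) * phi (q + j)
            = ∑ j ∈ range r, (-1 : ℝ) ^ j * (r.choose j : ℝ) * P.eval ((q : ℝ) + j) := by
          apply sum_congr rfl
          intro j hj
          rw [mem_range] at hj
          rw [ih (q + j) (by omega) (by omega)]
          push_cast
          ring
        rw [e3] at e1
        have e4 : (-1 : ℝ) ^ r * (phi (q + r) - P.eval ((q : ℝ) + r)) = 0 := by
          rw [Nat.choose_self] at e1 e2
          push_cast at e1 e2
          linarith
        have e5 : phi (q + r) - P.eval ((q : ℝ) + r) = 0 := by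
          rcases mul_eq_zero.mp e4 with h | h
          · exfalso
            have : (-1 : ℝ) ^ r ≠ 0 := pow_ne_zero _ (by norm_num)
            exact this h
          · exact h
        rw [add_comm r q]
        push_cast
        linarith
  have hQ : P * (P - 1) = 0 := by
    apply Polynomial.eq_zero_of_natDegree_lt_card_of_eval_eq_zero (P * (P - 1))
      (f := fun i : Fin (2 * r + 1) => ((i : ℕ) : ℝ))
    · intro a b hab
      have : (a : ℕ) = b := Nat.cast_injective hab
      exact Fin.ext this
    · intro i
      have hi : (i : ℕ) ≤ 2 * r := Nat.lt_succ_iff.mp i.2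
      rw [eval_mul, eval_sub, eval_one, ← hval i hi]
      rcases h01 i hi with h | h <;> rw [h] <;> norm_num
    · rw [Fintype.card_fin]
      have d1 : (P * (P - 1)).natDegree ≤ P.natDegree + (P - 1).natDegree := natDegree_mul_le
      have d2 : (P - 1).natDegree ≤ max P.natDegree (1 : ℝ[X]).natDegree := natDegree_sub_le _ _
      rw [natDegree_one, Nat.max_zero] at d2
      omega
  rw [hval 0 (by omega), hval 1 (by omega)]
  rcases mul_eq_zero.mp hQ with h | h
  · rw [h]; simp
  · have : P = 1 := sub_eq_zero.mp h
    rw [this]; simp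

end Pool.Agent.XLR
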