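import Pool.Agent.XLR.Targets

set_option autoImplicit false

/-!
# XLR, target NOMA: actions of the symmetric group as quotients of tuples
-/

open scoped Classical

noncomputable section

namespace Pool.Agent.XLR

namespace HNOMA

variable {q k n : ℕ} {X : Type} [Fintype X] [MulAction (Equiv.Perm (Fin n)) X]

/-- the orbits -/
abbrev Om (n : ℕ) (X : Type) [MulAction (Equiv.Perm (Fin n)) X] : Type :=
  MulAction.orbitRel.Quotient (Equiv.Perm (Fin n)) X

/-- the relation between tuples and points -/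
def R (e : Om n X → Fin q) (t : Om n X → Fin k → Fin n) (p : Pt (Fin q) (Fin n) k) (y : X) :
    Prop :=
  ∃ (o : Om n X) (σ : Equiv.Perm (Fin n)), e o = p.1 ∧ (∀ a, σ (t o a) = p.2 a) ∧
    y = σ • Quotient.out o

/-- the map -/
def piM (e : Om n X → Fin q) (t : Om n X → Fin k → Fin n) (p : Pt (Fin q) (Fin n) k) :
    Option X :=
  if h : ∃ y, R e t p y then some h.choose else none

theorem R_unique (e : Om n X → Fin q) (he : Function.Injective e) (t : Om n X → Fin k → Fin n)
    (ht : ∀ (o : Om n X) (σ : Equiv.Perm (Fin n)), (∀ a, σ (t o a) = t o a) →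
      σ • (Quotient.out o : X) = Quotient.out o)
    (p : Pt (Fin q) (Fin n) k) (y y' : X) (h : R e t p y) (h' : R e t p y') : y = y' := by
  obtain ⟨o, σ, h1, h2, rfl⟩ := h
  obtain ⟨o', σ', h1', h2', rfl⟩ := h'
  have ho : o = o' := he (h1.trans h1'.symm)
  subst ho
  have h3 : (σ⁻¹ * σ') • (Quotient.out o : X) = Quotient.out o := by
    refine ht o _ (fun a => ?_)
    rw [Equiv.Perm.mul_apply, h2' a, ← h2 a]
    exact σ.symm_apply_apply (t o a)
  have h4 : σ' • (Quotient.out o : X) = σ • ((σ⁻¹ * σ') • (Quotient.out o : X)) := by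
    rw [← mul_smul, mul_inv_cancel_left]
  rw [h4, h3]

theorem piM_iff (e : Om n X → Fin q) (he : Function.Injective e) (t : Om n X → Fin k → Fin n)
    (ht : ∀ (o : Om n X) (σ : Equiv.Perm (Fin n)), (∀ a, σ (t o a) = t o a) →
      σ • (Quotient.out o : X) = Quotient.out o)
    (p : Pt (Fin q) (Fin n) k) (y : X) : piM e t p = some y ↔ R e t p y := by
  unfold piM
  constructor
  · intro h
    by_cases hy : ∃ y, R e t p y
    · rw [dif_pos hy] at h
      have h1 := hy.choose_spec
      rw [Option.some.inj h] at h1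
      exact h1
    · rw [dif_neg hy] at h
      exact absurd h (by simp)
  · intro h
    have hy : ∃ y, R e t p y := ⟨y, h⟩
    rw [dif_pos hy]
    exact congrArg some (R_unique e he t ht p _ _ hy.choose_spec h)

omit [Fintype X] in
theorem R_mv (e : Om n X → Fin q) (t : Om n X → Fin k → Fin n) (p : Pt (Fin q) (Fin n) k) (y : X)
    (τ : Equiv.Perm (Fin n)) (h : R e t p y) : R e t (mv τ p) (τ • y) := by
  obtain ⟨o, σ, h1, h2, rfl⟩ := h
  refine ⟨o, τ * σ, h1, fun a => ?_, (mul_smul _ _ _).symm⟩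
  rw [Equiv.Perm.mul_apply, h2 a]
  rfl

theorem out_mem (x : X) : x ∈ MulAction.orbit (Equiv.Perm (Fin n))
    (Quotient.out (Quotient.mk'' x : Om n X)) := by
  have h : (Quotient.mk'' (Quotient.out (Quotient.mk'' x : Om n X)) : Om n X) =
      Quotient.mk'' x := Quotient.out_eq' _
  have h2 := Quotient.eq''.1 h
  exact MulAction.mem_orbit_symm.1 (MulAction.orbitRel_apply.1 h2)

/-- choice of the tuples -/
theorem choose_t (hN : Nom q k n X) (hk : k ≤ n) (o : Om n X) :
    ∃ t : Fin k → Fin n, Function.Injective t ∧ ∀ σ : Equiv.Perm (Fin n),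
      (∀ a, σ (t a) = t a) → σ • (Quotient.out o : X) = Quotient.out o := by
  obtain ⟨T, hT, hfix⟩ := hN.2 (Quotient.out o)
  obtain ⟨T', hTT', hT'⟩ := Finset.exists_superset_card_eq hT
    (by rw [Fintype.card_fin]; exact hk)
  refine ⟨fun a => T'.orderEmbOfFin hT' a, fun a b h => (T'.orderEmbOfFin hT').injective h,
    fun σ hσ => hfix σ (fun v hv => ?_)⟩
  have h1 : v ∈ Set.range (T'.orderEmbOfFin hT') := by
    rw [Finset.range_orderEmbOfFin]
    exact hTT' hv
  obtain ⟨a, rfl⟩ := h1
  exact hσ a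

end HNOMA

open HNOMA in
/-- target NOMA -/
theorem p_NOMA : T_NOMA := by
  intro q k n X _ _ hN hk
  have : Finite (Om n X) := Quotient.finite _
  have : Fintype (Om n X) := Fintype.ofFinite _
  have hcard : Fintype.card (Om n X) ≤ Fintype.card (Fin q) := by
    rw [Fintype.card_fin, ← Nat.card_eq_fintype_card]
    exact hN.1
  obtain ⟨e⟩ := Function.Embedding.nonempty_of_card_le hcard
  choose t htinj ht using fun o : Om n X => choose_t (X := X) hN hk o
  have hpi := piM_iff (⇑e) e.injective t ht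
  refine ⟨piM (⇑e) t, ?_, ?_, ?_, ?_⟩
  · intro σ p
    rcases hp : piM (⇑e) t p with _ | x
    · simp only [Option.map_none]
      rcases hp' : piM (⇑e) t (mv σ p) with _ | y
      · rfl
      · exfalso
        have h1 := R_mv _ _ _ _ σ⁻¹ ((hpi _ _).1 hp')
        have h2 : mv (σ⁻¹ : Equiv.Perm (Fin n)) (mv σ p) = p := by
          unfold mv
          refine Prod.ext rfl ?_
          funext a
          exact σ.symm_apply_apply (p.2 a)
        rw [h2] at h1
        have h3 := (hpi _ _).2 h1
        rw [hp] at h3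
        exact absurd h3 (by simp)
    · simp only [Option.map_some]
      exact (hpi _ _).2 (R_mv _ _ _ _ σ ((hpi _ _).1 hp))
  · intro p hp
    obtain ⟨y, hy⟩ := Option.ne_none_iff_exists'.1 hp
    obtain ⟨o, σ, _, h2, _⟩ := (hpi _ _).1 hy
    intro a b hab
    rw [← h2 a, ← h2 b] at hab
    exact htinj o (σ.injective hab)
  · intro p p' x x' hx hx'
    obtain ⟨o, σ, h1, _, rfl⟩ := (hpi _ _).1 hx
    obtain ⟨o', σ', h1', _, rfl⟩ := (hpi _ _).1 hx'
    constructor
    · rintro ⟨g, hg⟩
      have h3 : o = o' := by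
        rw [← Quotient.out_eq o, ← Quotient.out_eq o']
        apply Quotient.sound
        refine ⟨σ⁻¹ * (g⁻¹ * σ'), ?_⟩
        dsimp only at hg ⊢
        rw [mul_smul, mul_smul, ← hg, inv_smul_smul, inv_smul_smul]
      rw [← h1, ← h1', h3]
    · intro h
      have h3 : o = o' := e.injective (h1.trans (h.trans h1'.symm))
      subst h3
      refine ⟨σ' * σ⁻¹, ?_⟩
      dsimp only
      rw [mul_smul, inv_smul_smul]
  · intro x
    obtain ⟨σ, hσ⟩ := out_mem (n := n) x
    exact ⟨(e (Quotient.mk'' x), fun a => σ (t (Quotient.mk'' x) a)),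
      (hpi _ _).2 ⟨Quotient.mk'' x, σ, rfl, fun _ => rfl, hσ.symm⟩⟩

end Pool.Agent.XLR
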