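import Pool.Agent.XLR.Targets

set_option autoImplicit false

/-!
NOMC: the number of points.
-/

open scoped Classical

noncomputable section

namespace Pool.Agent.XLR

namespace HNOMC

private lemma pow_bound {n k : ℕ} (T : Finset (Fin n)) (hT : T.card ≤ k) :
    n ^ T.card ≤ n ^ k + 1 := by
  rcases Nat.eq_zero_or_pos n with h | h
  · subst h
    have hT0 : T.card = 0 := by
      rw [Finset.card_eq_zero]
      exact Finset.eq_empty_of_forall_notMem (fun x => x.elim0)
    rw [hT0]
    simp
  · exact (Nat.pow_le_pow_right h hT).trans (Nat.le_succ _)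

private lemma orbit_bound {n : ℕ} {X : Type} [Fintype X] [MulAction (Equiv.Perm (Fin n)) X]
    (x : X) (T : Finset (Fin n))
    (hT : ∀ σ : Equiv.Perm (Fin n), (∀ v ∈ T, σ v = v) → σ • x = x) (s : Finset X)
    (hs : ∀ y ∈ s, y ∈ MulAction.orbit (Equiv.Perm (Fin n)) x) : s.card ≤ n ^ T.card := by
  have hch : ∀ y : X, ∃ σ : Equiv.Perm (Fin n), y ∈ s → σ • x = y := by
    intro y
    by_cases h : y ∈ s
    · obtain ⟨σ, hσ⟩ := MulAction.mem_orbit_iff.mp (hs y h)
      exact ⟨σ, fun _ => hσ⟩
    · exact ⟨1, fun h' => absurd h' h⟩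
  choose σ hσ using hch
  have h1 : s.card ≤ (Finset.univ : Finset (T → Fin n)).card := by
    refine Finset.card_le_card_of_injOn (fun y => fun v : T => σ y v.1)
      (fun y _ => Finset.mem_coe.mpr (Finset.mem_univ _)) ?_
    intro y hy z hz hyz
    have hy' : y ∈ s := hy
    have hz' : z ∈ s := hz
    have hfix : ((σ z)⁻¹ * σ y) • x = x := by
      apply hT
      intro v hv
      have h2 : σ y v = σ z v := congrFun hyz ⟨v, hv⟩
      rw [Equiv.Perm.mul_apply, h2]
      exact (σ z).symm_apply_apply v
    rw [mul_smul, inv_smul_eq_iff] at hfix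
    rw [← hσ y hy', ← hσ z hz', hfix]
  rw [Finset.card_univ, Fintype.card_fun, Fintype.card_fin, Fintype.card_coe] at h1
  exact h1

end HNOMC

/-- NOMC: the number of points. -/
theorem p_NOMC : T_NOMC := by
  intro q k n X _ _ hN
  obtain ⟨hq, hst⟩ := hN
  have hfin : Finite (MulAction.orbitRel.Quotient (Equiv.Perm (Fin n)) X) :=
    Quotient.finite _
  let f : X → MulAction.orbitRel.Quotient (Equiv.Perm (Fin n)) X := fun x => Quotient.mk'' x
  have hfib : ∀ a ∈ (Finset.univ : Finset X).image f,
      ((Finset.univ : Finset X).filter (fun x => f x = a)).card ≤ n ^ k + 1 := by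
    intro a ha
    obtain ⟨x, _, rfl⟩ := Finset.mem_image.mp ha
    obtain ⟨T, hT, hTx⟩ := hst x
    refine (HNOMC.orbit_bound x T hTx _ ?_).trans (HNOMC.pow_bound T hT)
    intro y hy
    have hyx : f y = f x := (Finset.mem_filter.mp hy).2
    exact MulAction.orbitRel_apply.mp (Quotient.exact hyx)
  have h1 := Finset.card_le_mul_card_image (Finset.univ : Finset X) (n ^ k + 1) hfib
  have h2 : ((Finset.univ : Finset X).image f).card ≤ q := by
    have h3 : ((Finset.univ : Finset X).image f).card ≤
        Nat.card (MulAction.orbitRel.Quotient (Equiv.Perm (Fin n)) X) := by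
      have := Fintype.ofFinite (MulAction.orbitRel.Quotient (Equiv.Perm (Fin n)) X)
      rw [Nat.card_eq_fintype_card]
      exact Finset.card_le_univ _
    exact h3.trans hq
  rw [Finset.card_univ] at h1
  calc Fintype.card X ≤ (n ^ k + 1) * ((Finset.univ : Finset X).image f).card := h1
    _ ≤ (n ^ k + 1) * q := Nat.mul_le_mul_left _ h2
    _ = q * (n ^ k + 1) := Nat.mul_comm _ _

end Pool.Agent.XLR
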