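import Pool.Agent.XLR.Targets

set_option autoImplicit false

open scoped Classical

noncomputable section

namespace Pool.Agent.XLR

/-- pushing down along a map with values in Option X -/
def HNOMR_L {P X : Type} [Fintype P] (π : P → Option X) (A : P → ZMod 2) (x : X) : ZMod 2 :=
  ∑ p, if π p = some x then A p else 0

theorem p_NOMR (hMAIN : T_MAIN) (hRANK : T_RANK) (hNOMA : T_NOMA) (hSUBM : T_SUBM) : T_NOMR := by
  intro q k n r X _ _ f A B hX hkn hr hf hAB hne hn
  obtain ⟨π, hπ1, hπ2, hπ3, hπ4⟩ := hNOMA q k n X hX hkn
  choose s hs using hπ4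
  have hsinj : Function.Injective s := by
    intro x y h
    have := hs x
    rw [h, hs y] at this
    exact (Option.some_injective _ this).symm
  -- the pulled back function
  set L : (Pt (Fin q) (Fin n) k → ZMod 2) → (X → ZMod 2) := HNOMR_L π with hL
  have hLadd : ∀ A B, L (A + B) = L A + L B := by
    intro A B
    funext x
    simp only [hL, HNOMR_L, Pi.add_apply]
    rw [← Finset.sum_add_distrib]
    refine Finset.sum_congr rfl ?_
    intro p _
    split_ifs <;> simp
  set f' : (Pt (Fin q) (Fin n) k → ZMod 2) → Bool := fun A => f (L A) with hf'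
  have hLmv : ∀ (σ : Equiv.Perm (Fin n)) (A : Pt (Fin q) (Fin n) k → ZMod 2),
      L (fun x => A (mv σ x)) = fun x => L A (σ • x) := by
    intro σ A
    funext x
    simp only [hL, HNOMR_L]
    refine Fintype.sum_bijective (fun p => mv σ p) ?_ _ _ ?_
    · constructor
      · intro p p' h
        have h1 : (mv σ p).1 = (mv σ p').1 := congrArg (fun z : Pt (Fin q) (Fin n) k => z.1) h
        have h2 : (mv σ p).2 = (mv σ p').2 := congrArg (fun z : Pt (Fin q) (Fin n) k => z.2) h
        refine Prod.ext h1 ?_
        funext a
        exact σ.injective (congrFun h2 a)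
      · intro p
        refine ⟨mv σ.symm p, ?_⟩
        refine Prod.ext rfl ?_
        funext a
        simp [mv]
    · intro p
      have : (π p = some x) ↔ (π (mv σ p) = some (σ • x)) := by
        rw [hπ1 σ p]
        constructor
        · intro h
          rw [h]
          rfl
        · intro h
          rw [Option.map_eq_some_iff] at h
          obtain ⟨y, hy, hy2⟩ := h
          rw [hy, MulAction.injective σ hy2]
      by_cases h : π p = some x
      · rw [if_pos h, if_pos (this.1 h)]
      · rw [if_neg h, if_neg (fun h' => h (this.2 h'))]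
  have hinv : Inv f' := by
    intro σ A
    simp only [hf']
    rw [hLmv σ A]
    exact hf σ (L A)
  -- lifts
  set lf : (X → ZMod 2) → (Pt (Fin q) (Fin n) k → ZMod 2) := fun A p =>
    ∑ x, if s x = p then A x else 0 with hlf
  have hLlf : ∀ A, L (lf A) = A := by
    intro A
    funext x
    simp only [hL, HNOMR_L, hlf]
    have h1 : ∀ p, (if π p = some x then ∑ y, (if s y = p then A y else 0) else 0) =
        ∑ y, if s y = p then (if π p = some x then A y else 0) else 0 := by
      intro p
      split_ifs with h
      · rfl
      · simp
    rw [Finset.sum_congr rfl (fun p _ => h1 p), Finset.sum_comm]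
    have h2 : ∀ y, (∑ p, if s y = p then (if π p = some x then A y else 0) else 0) =
        if y = x then A y else 0 := by
      intro y
      rw [Finset.sum_ite_eq]
      simp only [Finset.mem_univ, if_true]
      rw [hs y]
      simp only [Option.some.injEq]
    rw [Finset.sum_congr rfl (fun y _ => h2 y)]
    simp
  have hparlf : ∀ (A : X → ZMod 2) t, par (lf A) t = ∑ x, if ty (s x) = t then A x else 0 := by
    intro A t
    simp only [par, hlf]
    have h1 : ∀ p : Pt (Fin q) (Fin n) k,
        (if ty p = t then ∑ y, (if s y = p then A y else 0) else 0) =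
        ∑ y, if s y = p then (if ty p = t then A y else 0) else 0 := by
      intro p
      split_ifs with h
      · rfl
      · simp
    rw [Finset.sum_congr rfl (fun p _ => h1 p), Finset.sum_comm]
    refine Finset.sum_congr rfl ?_
    intro y _
    rw [Finset.sum_ite_eq]
    simp
  have htys : ∀ x y, ty (s x) = ty (s y) ↔ y ∈ MulAction.orbit (Equiv.Perm (Fin n)) x := by
    intro x y
    rw [hπ3 (s x) (s y) x y (hs x) (hs y)]
    constructor
    · intro h
      exact congrArg (fun z : Fin q × (Fin k → Fin k → Bool) => z.1) h
    · intro h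
      refine Prod.ext h ?_
      funext a b
      have hx : Function.Injective (s x).2 := hπ2 (s x) (by rw [hs x]; simp)
      have hy : Function.Injective (s y).2 := hπ2 (s y) (by rw [hs y]; simp)
      simp only [ty, hx.eq_iff, hy.eq_iff]
  have hpareq : ∀ t, par (lf A) t = par (lf B) t := by
    intro t
    rw [hparlf, hparlf]
    by_cases h : ∃ x, ty (s x) = t
    · obtain ⟨x, rfl⟩ := h
      have h1 : ∀ C : X → ZMod 2, (∑ y, if ty (s y) = ty (s x) then C y else 0) = opar n C x := by
        intro C
        unfold opar
        refine Finset.sum_congr rfl ?_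
        intro y _
        by_cases h : ty (s y) = ty (s x)
        · rw [if_pos h, if_pos ((htys x y).1 h.symm)]
        · rw [if_neg h, if_neg (fun h' => h ((htys x y).2 h').symm)]
      rw [h1, h1, hAB x]
    · push Not at h
      refine Finset.sum_congr rfl ?_
      intro y _
      rw [if_neg (h y), if_neg (h y)]
  have hne' : f' (lf A) ≠ f' (lf B) := by
    simp only [hf', hLlf]
    exact hne
  have h1 := hMAIN (Fin q) (Fin n) k r f' (lf A) (lf B) hr hinv hpareq hne' (by simpa using hn)
  have h2 := hRANK (Pt (Fin q) (Fin n) k) f'
  have h3 := hSUBM X (Pt (Fin q) (Fin n) k) f L hLadd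
  exact le_trans h1 (le_trans h2 h3)

end Pool.Agent.XLR
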