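import Pool.Agent.XLR.Targets

set_option autoImplicit false

/-!
# MP_9f5962_lc: odd on `r` disjoint null configurations
-/

open scoped Classical

namespace Pool.Agent.XLR

theorem p_ODD (hDEC : T_DEC) (hTRANS : T_TRANS) : T_ODD := by
  intro J V _ _ k r f S b U hinv hfh hpar hip hvs hdis
  choose x y τ hx hy hmv hτ hS using fun i => hDEC J V k S (b i) (U i) (hpar i) (hip i) (hvs i)
  refine hTRANS J V k r f S x y hinv hfh ⟨τ, hmv, ?_⟩ hS
  intro i j hji
  have hfix : ∀ v, v ∈ U i → τ j v = v := fun v hv =>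
    hτ j v (fun hv' => Set.disjoint_left.mp (hdis i j (Ne.symm hji)) hv hv')
  constructor
  · unfold mv
    exact Prod.ext rfl (funext (fun a => hfix _ (hx i a)))
  · unfold mv
    exact Prod.ext rfl (funext (fun a => hfix _ (hy i a)))

end Pool.Agent.XLR
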