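import Pool.Agent.XLR.Targets

set_option autoImplicit false

/-!
# XLR, target PAIRS: independent pairs in a large configuration
-/

open scoped Classical

noncomputable section

namespace Pool.Agent.XLR

namespace HPAIRS

/-- a large fibre of the type map -/
theorem fibre {J V : Type} [Fintype J] [Fintype V] (k m : ℕ) (A : Pt J V k → ZMod 2)
    (h : Fintype.card J * 2 ^ (k * k) * m < sz A) :
    ∃ t : J × (Fin k → Fin k → Bool),
      m < ((Finset.univ.filter (fun x : Pt J V k => A x ≠ 0)).filter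
        (fun x => ty x = t)).card := by
  have h1 : sz A = (Finset.univ.filter (fun x : Pt J V k => A x ≠ 0)).card := by
    unfold sz
    rw [← Set.ncard_coe_finset]
    congr 1
    ext x
    simp
  have h2 : (Finset.univ : Finset (J × (Fin k → Fin k → Bool))).card =
      Fintype.card J * 2 ^ (k * k) := by
    rw [Finset.card_univ, Fintype.card_prod, Fintype.card_fun, Fintype.card_fun,
      Fintype.card_bool, Fintype.card_fin, ← pow_mul]
  rw [h1, ← h2] at h
  obtain ⟨t, _, ht⟩ := Finset.exists_lt_card_fiber_of_mul_lt_card_of_maps_to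
    (s := Finset.univ.filter (fun x : Pt J V k => A x ≠ 0)) (t := Finset.univ)
    (f := fun x => ty x) (fun _ _ => Finset.mem_univ _) h
  exact ⟨t, ht⟩

end HPAIRS

/-- target PAIRS -/
theorem p_PAIRS (hEXT : T_EXT) (hSUNF : T_SUNF) : T_PAIRS := by
  intro J V _ _ k r A hA
  unfold eb at hA
  obtain ⟨t0, ht0⟩ := HPAIRS.fibre k _ A hA
  set P : Finset (Pt J V k) := (Finset.univ.filter (fun x : Pt J V k => A x ≠ 0)).filter
        (fun x => ty x = t0) with hP
  have hPm : ∀ x, x ∈ P ↔ A x ≠ 0 ∧ ty x = t0 := by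
    intro x
    rw [hP, Finset.mem_filter, Finset.mem_filter]
    simp
  set G : Finset (Fin k → V) := P.image (fun x => x.2) with hG
  have hcol : ∀ x ∈ P, x.1 = t0.1 := by
    intro x hx
    have h1 := ((hPm x).1 hx).2
    rw [← h1]
    rfl
  have hGcard : G.card = P.card := by
    refine Finset.card_image_of_injOn ?_
    intro x hx y hy hxy
    have h1 := hcol x hx
    have h2 := hcol y hy
    exact Prod.ext (h1.trans h2.symm) hxy
  rw [← hGcard] at ht0
  obtain ⟨D, t, hD, htG, hout, hin, hio⟩ := hSUNF V k (2 * r) G ht0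
  have htP : ∀ i, (t0.1, t i) ∈ P := by
    intro i
    have h1 := htG i
    rw [hG, Finset.mem_image] at h1
    obtain ⟨x, hx, hxt⟩ := h1
    have h2 : x = (t0.1, t i) := Prod.ext (hcol x hx) hxt
    rw [← h2]
    exact hx
  have hA2 : ∀ i, A (t0.1, t i) ≠ 0 := fun i => ((hPm _).1 (htP i)).1
  have hty : ∀ i, ty ((t0.1, t i) : Pt J V k) = t0 := fun i => ((hPm _).1 (htP i)).2
  have hpat : ∀ i j a b, t i a = t i b ↔ t j a = t j b := by
    intro i j a b
    have h1 : ty ((t0.1, t i) : Pt J V k) = ty ((t0.1, t j) : Pt J V k) :=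
      (hty i).trans (hty j).symm
    have h2 := congrFun (congrFun (congrArg Prod.snd h1) a) b
    simpa [ty] using h2
  set u : Fin r → Fin (2 * r) := fun i => ⟨2 * i, by omega⟩ with hu
  set v : Fin r → Fin (2 * r) := fun i => ⟨2 * i + 1, by omega⟩ with hv
  have huv : ∀ i j, u i ≠ v j := by
    intro i j h
    have h1 := congrArg Fin.val h
    simp only [hu, hv] at h1
    omega
  have huu : ∀ i j, i ≠ j → u i ≠ u j := by
    intro i j hij h
    have h1 := congrArg Fin.val h
    simp only [hu] at h1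
    exact hij (Fin.ext (by omega))
  have hvv : ∀ i j, i ≠ j → v i ≠ v j := by
    intro i j hij h
    have h1 := congrArg Fin.val h
    simp only [hv] at h1
    exact hij (Fin.ext (by omega))
  have hext : ∀ i : Fin r, ∃ τ : Equiv.Perm V, (∀ a ∈ D, τ (t (u i) a) = t (v i) a) ∧
      ∀ w, (∀ a ∈ D, w ≠ t (u i) a ∧ w ≠ t (v i) a) → τ w = w := by
    intro i
    obtain ⟨τ, h1, h2⟩ := hEXT V {a // a ∈ D} (fun a => t (u i) a.1) (fun a => t (v i) a.1)
      {w | ∃ a ∈ D, w = t (u i) a ∨ w = t (v i) a}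
      (fun a b => hpat (u i) (v i) a.1 b.1) (fun a => ⟨a.1, a.2, Or.inl rfl⟩)
      (fun a => ⟨a.1, a.2, Or.inr rfl⟩)
    refine ⟨τ, fun a ha => h1 ⟨a, ha⟩, fun w hw => h2 w ?_⟩
    rintro ⟨a, ha, h3⟩
    rcases h3 with h3 | h3
    · exact (hw a ha).1 h3
    · exact (hw a ha).2 h3
  choose τ hτ1 hτ2 using hext
  obtain ⟨a0, ha0⟩ := hD
  refine ⟨fun i => (t0.1, t (u i)), fun i => (t0.1, t (v i)), ⟨τ, ?_, ?_⟩, ?_, ?_, ?_, ?_, ?_⟩
  · intro i
    unfold mv
    refine Prod.ext rfl ?_
    funext a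
    show τ i (t (u i) a) = t (v i) a
    by_cases ha : a ∈ D
    · exact hτ1 i a ha
    · rw [hτ2 i (t (u i) a) (fun b hb => ⟨(hio (u i) (u i) b hb a ha).symm,
        (hio (v i) (u i) b hb a ha).symm⟩)]
      exact hout _ _ a ha
  · intro i j hji
    constructor
    · unfold mv
      refine Prod.ext rfl ?_
      funext a
      show τ j (t (u i) a) = t (u i) a
      refine hτ2 j _ (fun b hb => ?_)
      by_cases ha : a ∈ D
      · exact ⟨hin _ _ (huu i j (Ne.symm hji)) a ha b hb, hin _ _ (huv i j) a ha b hb⟩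
      · exact ⟨(hio _ _ b hb a ha).symm, (hio _ _ b hb a ha).symm⟩
    · unfold mv
      refine Prod.ext rfl ?_
      funext a
      show τ j (t (v i) a) = t (v i) a
      refine hτ2 j _ (fun b hb => ?_)
      by_cases ha : a ∈ D
      · exact ⟨hin _ _ (Ne.symm (huv j i)) a ha b hb,
          hin _ _ (hvv i j (Ne.symm hji)) a ha b hb⟩
      · exact ⟨(hio _ _ b hb a ha).symm, (hio _ _ b hb a ha).symm⟩
  · exact fun i => ⟨hA2 _, hA2 _⟩
  · exact fun i => (hty _).trans (hty _).symm
  · intro i j h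
    have h1 : t (u i) = t (v j) := congrArg Prod.snd h
    exact hin _ _ (huv i j) a0 ha0 a0 ha0 (congrFun h1 a0)
  · intro i j h
    by_contra hij
    have h1 : t (u i) = t (u j) := congrArg Prod.snd h
    exact hin _ _ (huu i j hij) a0 ha0 a0 ha0 (congrFun h1 a0)
  · intro i j h
    by_contra hij
    have h1 : t (v i) = t (v j) := congrArg Prod.snd h
    exact hin _ _ (hvv i j hij) a0 ha0 a0 ha0 (congrFun h1 a0)

end Pool.Agent.XLR
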