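import Pool.Agent.XLR.Targets

set_option autoImplicit false

open scoped Classical

noncomputable section

namespace Pool.Agent.XLR

theorem HPROT_zmod2 (u : ZMod 2) : (if u ≠ 0 then (1 : ZMod 2) else 0) = u := by
  revert u; decide

theorem p_PROT : T_PROT := by
  intro X ι _ _ L f hL hf
  set N := Fintype.card ι with hN
  set e : Fin N ≃ ι := (Fintype.equivFin ι).symm with he
  set dec : List Bool → ι → ZMod 2 := fun u j =>
    if u.getD (e.symm j).1 false = true then 1 else 0 with hdec
  set h : (ι → ZMod 2) → Bool := fun w => if hw : ∃ C, L C = w then f hw.choose else false with hh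
  have hhL : ∀ C, h (L C) = f C := by
    intro C
    simp only [hh]
    have hex : ∃ C', L C' = L C := ⟨C, rfl⟩
    rw [dif_pos hex]
    exact hf _ _ hex.choose_spec
  refine ⟨fun u => decide (u.length < N),
    fun u x => if hu : u.length < N then decide (L x (e ⟨u.length, hu⟩) ≠ 0) else false,
    fun u y => h (dec u + L y), fun t => t.getD N false, ?_⟩
  intro x y t ht hcons
  have hA : ∀ i : Fin N, t[i.1]? = some (decide (L x (e i) ≠ 0)) := by
    intro i
    have h1 := hcons i.1 (by have := i.2; omega)
    have hlen : (t.take i.1).length = i.1 := by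
      rw [List.length_take]
      have := i.2
      omega
    rw [h1]
    have h2 : (t.take i.1).length < N := by rw [hlen]; exact i.2
    simp only [h2, decide_true, if_true, dif_pos]
    have h3 : (⟨(t.take i.1).length, h2⟩ : Fin N) = i := Fin.ext hlen
    rw [h3]
  have hB := hcons N (by omega)
  have hlenN : (t.take N).length = N := by
    rw [List.length_take]
    omega
  have hdecx : dec (t.take N) = L x := by
    funext j
    simp only [hdec]
    have h1 := hA (e.symm j)
    rw [Equiv.apply_symm_apply] at h1
    have h2 : (t.take N)[(e.symm j).1]? = some (decide (L x j ≠ 0)) := by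
      rw [List.getElem?_take_of_lt (e.symm j).2]
      exact h1
    rw [List.getD_eq_getElem?_getD, h2]
    simp only [Option.getD_some, decide_eq_true_eq]
    exact HPROT_zmod2 _
  simp only [hlenN, lt_irrefl, decide_false] at hB
  show t.getD N false = f (x + y)
  rw [List.getD_eq_getElem?_getD, hB]
  simp only [Bool.false_eq_true, if_false, Option.getD_some]
  rw [hdecx, ← hL, hhL]

end Pool.Agent.XLR
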