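import Pool.Agent.XLR.Targets

set_option autoImplicit false

/-!
# MP_9f5962_lc: PUSHA, pushing configurations forward
-/

open scoped Classical

noncomputable section

namespace Pool.Agent.XLR

namespace HPUSHA

variable {J V W Y : Type} [Fintype J] [Fintype V] [Fintype W] [Fintype Y] {k : ℕ}

omit [Fintype W] in
theorem push_add (h : V → W) (A B : Pt J V k → ZMod 2) :
    push h (A + B) = push h A + push h B := by
  funext y
  show ∑ x, (if mv h x = y then (A + B) x else 0) =
    ∑ x, (if mv h x = y then A x else 0) + ∑ x, (if mv h x = y then B x else 0)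
  rw [← Finset.sum_add_distrib]
  refine Finset.sum_congr rfl fun x _ => ?_
  by_cases hx : mv h x = y
  · rw [if_pos hx, if_pos hx, if_pos hx]
    rfl
  · rw [if_neg hx, if_neg hx, if_neg hx, add_zero]

omit [Fintype Y] in
theorem push_push (g : W → Y) (h : V → W) (A : Pt J V k → ZMod 2) :
    push g (push h A) = push (fun v => g (h v)) A := by
  funext z
  show ∑ y, (if mv g y = z then ∑ x, (if mv h x = y then A x else 0) else 0) =
    ∑ x, (if mv (fun v => g (h v)) x = z then A x else 0)
  have h1 : ∀ y : Pt J W k, (if mv g y = z then ∑ x, (if mv h x = y then A x else 0) else 0) =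
      ∑ x, (if mv h x = y then (if mv g (mv h x) = z then A x else 0) else 0) := by
    intro y
    by_cases hy : mv g y = z
    · rw [if_pos hy]
      refine Finset.sum_congr rfl fun x _ => ?_
      by_cases hx : mv h x = y
      · rw [if_pos hx, if_pos hx, hx, if_pos hy]
      · rw [if_neg hx, if_neg hx]
    · rw [if_neg hy]
      symm
      refine Finset.sum_eq_zero fun x _ => ?_
      by_cases hx : mv h x = y
      · rw [if_pos hx, hx, if_neg hy]
      · rw [if_neg hx]
  rw [Finset.sum_congr rfl fun y _ => h1 y, Finset.sum_comm]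
  refine Finset.sum_congr rfl fun x _ => ?_
  rw [Finset.sum_ite_eq Finset.univ (mv h x)
    (fun _ => if mv g (mv h x) = z then A x else 0), if_pos (Finset.mem_univ _)]
  rfl

omit [Fintype W] in
theorem push_congr (h h' : V → W) (A : Pt J V k → ZMod 2) (hA : ∀ v ∈ vs A, h v = h' v) :
    push h A = push h' A := by
  funext y
  refine Finset.sum_congr rfl fun x _ => ?_
  by_cases hx : A x = 0
  · rw [hx, ite_self, ite_self]
  · have h1 : mv h x = mv h' x := by
      unfold mv
      refine Prod.ext rfl ?_
      funext a
      exact hA (x.2 a) ⟨x, hx, a, rfl⟩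
    rw [h1]

end HPUSHA

/-- PUSHA -/
theorem p_PUSHA : T_PUSHA := by
  intro J V W Y _ _ _ _ k g h h' A B
  exact ⟨HPUSHA.push_add h A B, HPUSHA.push_push g h A, HPUSHA.push_congr h h' A⟩

end Pool.Agent.XLR
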