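import Pool.Agent.XLR.Targets

set_option autoImplicit false

/-!
# MP_9f5962_lc: PUSHB, push preserves parities
-/

open scoped Classical

noncomputable section

namespace Pool.Agent.XLR

/-- PUSHB -/
theorem p_PUSHB : T_PUSHB := by
  intro J V W _ _ _ k h A
  constructor
  · rintro v ⟨y, hy, a, rfl⟩
    have h1 : ∃ x : Pt J V k, mv h x = y ∧ A x ≠ 0 := by
      by_contra hcon
      push Not at hcon
      refine hy ?_
      unfold push
      refine Finset.sum_eq_zero (fun x _ => ?_)
      split_ifs with h2
      · exact hcon x h2
      · rfl
    obtain ⟨x, rfl, hx⟩ := h1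
    exact ⟨x.2 a, ⟨x, hx, a, rfl⟩, rfl⟩
  · intro hinj t
    unfold par push
    have h1 : ∀ y : Pt J W k, (if ty y = t then ∑ x, (if mv h x = y then A x else 0) else 0) =
        ∑ x, (if mv h x = y then (if ty (mv h x) = t then A x else 0) else 0) := by
      intro y
      by_cases hy : ty y = t
      · rw [if_pos hy]
        refine Finset.sum_congr rfl (fun x _ => ?_)
        by_cases hx : mv h x = y
        · rw [if_pos hx, if_pos hx, hx, if_pos hy]
        · rw [if_neg hx, if_neg hx]
      · rw [if_neg hy]
        symm
        refine Finset.sum_eq_zero (fun x _ => ?_)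
        by_cases hx : mv h x = y
        · rw [if_pos hx, hx, if_neg hy]
        · rw [if_neg hx]
    rw [Finset.sum_congr rfl (fun y _ => h1 y), Finset.sum_comm]
    refine Finset.sum_congr rfl (fun x _ => ?_)
    rw [Finset.sum_ite_eq, if_pos (Finset.mem_univ _)]
    by_cases hx : A x = 0
    · rw [hx]
      split_ifs <;> rfl
    · have h2 : ty (mv h x) = ty x := by
        unfold ty mv
        refine Prod.ext rfl ?_
        funext a b
        refine decide_eq_decide.mpr ?_
        constructor
        · intro h3
          exact hinj _ ⟨x, hx, a, rfl⟩ _ ⟨x, hx, b, rfl⟩ h3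
        · intro h3
          exact congrArg h h3
      rw [h2]

end Pool.Agent.XLR
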