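import Pool.Agent.XLR.Targets

open scoped Classical

namespace Pool.Agent.XLR

namespace HPUSHC

theorem mv_eq {J V : Type} {k : ℕ} (σ : Equiv.Perm V) (x y : Pt J V k) :
    mv σ x = y ↔ x = mv (σ⁻¹ : Equiv.Perm V) y := by
  constructor
  · rintro rfl
    refine Prod.ext rfl ?_
    funext a
    simp [mv]
  · rintro rfl
    refine Prod.ext rfl ?_
    funext a
    simp [mv]

theorem push_perm {J V : Type} [Fintype J] [Fintype V] {k : ℕ} (σ : Equiv.Perm V)
    (A : Pt J V k → ZMod 2) : push σ A = fun x => A (mv (σ⁻¹ : Equiv.Perm V) x) := by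
  funext y
  unfold push
  rw [Finset.sum_eq_single (mv (σ⁻¹ : Equiv.Perm V) y)]
  · rw [if_pos ((mv_eq σ _ y).2 rfl)]
  · intro x _ hx
    rw [if_neg (fun h => hx ((mv_eq σ x y).1 h))]
  · intro h
    exact absurd (Finset.mem_univ _) h

end HPUSHC

theorem p_PUSHC : T_PUSHC := by
  intro J V _ _ k σ f A B
  refine ⟨?_, ?_, ?_, ?_⟩
  · intro hf
    rw [HPUSHC.push_perm]
    exact hf _ A
  · have h := HPUSHC.push_perm (1 : Equiv.Perm V) A
    have h1 : ((1 : Equiv.Perm V) : V → V) = fun v : V => v := by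
      funext v
      rfl
    rw [h1] at h
    rw [h]
    funext x
    rfl
  · intro t
    unfold par
    rw [← Finset.sum_add_distrib]
    refine Finset.sum_congr rfl (fun x _ => ?_)
    by_cases hx : ty x = t
    · simp [hx]
    · simp [hx]
  · rintro v ⟨x, hx, a, ha⟩
    by_cases h1 : A x = 0
    · right
      refine ⟨x, ?_, a, ha⟩
      intro h2
      apply hx
      simp [h1, h2]
    · left
      exact ⟨x, h1, a, ha⟩

end Pool.Agent.XLR
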