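import Pool.Agent.XLR.Targets

set_option autoImplicit false

/-!
# MP_9f5962_lc: target SONE, small null configurations
-/

open scoped Classical

noncomputable section

namespace Pool.Agent.XLR

namespace HSONE

variable {J V : Type} [Fintype J] [Fintype V] {k : ℕ}

lemma push_sum (hA : T_PUSHA) (h : V → V) {ι : Type} (Z : Finset ι) (b : ι → Pt J V k → ZMod 2) :
    push h (∑ i ∈ Z, b i) = ∑ i ∈ Z, push h (b i) := by
  have hadd : ∀ A B : Pt J V k → ZMod 2, push h (A + B) = push h A + push h B :=
    fun A B => (hA J V V V k h h h A B).1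
  exact map_sum (AddMonoidHom.mk' (push h) hadd) b Z

lemma push_id (hC : T_PUSHC) (hA : T_PUSHA) (τ : V → V) (R : Pt J V k → ZMod 2)
    (h : ∀ v ∈ vs R, τ v = v) : push τ R = R := by
  have h1 := (hA J V V V k τ τ (fun v => v) R R).2.2 h
  rw [h1]
  exact (hC J V k 1 (fun _ => true) R R).2.1

lemma push_push (hA : T_PUSHA) (τ g g' : V → V) (G : Pt J V k → ZMod 2)
    (h : ∀ v ∈ vs G, τ (g v) = g' v) : push τ (push g G) = push g' G := by
  rw [(hA J V V V k τ g g G G).2.1]
  exact (hA J V V V k τ (fun v => τ (g v)) g' G G).2.2 h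

lemma exists_perm_image {n : ℕ} (Z Z' : Finset (Fin n)) (h : Z.card = Z'.card) :
    ∃ π : Equiv.Perm (Fin n), Z.map π.toEmbedding = Z' := by
  let e : {x // x ∈ Z} ≃ {x // x ∈ Z'} := Finset.equivOfCardEq h
  refine ⟨e.extendSubtype, ?_⟩
  apply Finset.eq_of_subset_of_card_le
  · intro x hx
    rw [Finset.mem_map] at hx
    obtain ⟨y, hy, rfl⟩ := hx
    exact e.extendSubtype_mem y hy
  · rw [Finset.card_map, h]

end HSONE

open HSONE in
theorem p_SONE (hSYM : T_SYM) (hODD : T_ODD) (hEXT : T_EXT) (hCOPY : T_COPY) (hPUSHA : T_PUSHA)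
    (hPUSHB : T_PUSHB) (hPUSHC : T_PUSHC) : T_SONE := by
  intro J V _ _ k r f R G hr hInv hpar hdisj hne hcard
  obtain ⟨e, he1, he2⟩ := hCOPY V (2 * r) (vs G) (vs R) hcard
  set b : Fin (2 * r) → Pt J V k → ZMod 2 := fun i => push (e i) G with hb
  -- invariance under permutations of the indices
  have key : ∀ (π : Equiv.Perm (Fin (2 * r))) (Z : Finset (Fin (2 * r))),
      f (R + ∑ i ∈ Z, b i) = f (R + ∑ i ∈ Z, b (π i)) := by
    intro π Z
    let x : (vs R) ⊕ (Fin (2 * r) × (vs G)) → V := fun a => match a with
      | Sum.inl v => v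
      | Sum.inr p => e p.1 p.2
    let y : (vs R) ⊕ (Fin (2 * r) × (vs G)) → V := fun a => match a with
      | Sum.inl v => v
      | Sum.inr p => e (π p.1) p.2
    obtain ⟨τ, hτ, -⟩ := hEXT V ((vs R) ⊕ (Fin (2 * r) × (vs G))) x y Set.univ
      (by
        intro a c
        rcases a with v | ⟨i, v⟩ <;> rcases c with w | ⟨j, w⟩
        · exact Iff.rfl
        · constructor
          · intro h
            exfalso
            apply he1 j w w.2
            have : (v : V) = e j w := h
            rw [← this]; exact v.2
          · intro h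
            exfalso
            apply he1 (π j) w w.2
            have : (v : V) = e (π j) w := h
            rw [← this]; exact v.2
        · constructor
          · intro h
            exfalso
            apply he1 i v v.2
            have : e i v = (w : V) := h
            rw [this]; exact w.2
          · intro h
            exfalso
            apply he1 (π i) v v.2
            have : e (π i) v = (w : V) := h
            rw [this]; exact w.2
        · constructor
          · intro h
            have h' : e i v = e j w := h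
            obtain ⟨h1, h2⟩ := he2 i j v v.2 w w.2 h'
            show e (π i) v = e (π j) w
            rw [h1, h2]
          · intro h
            have h' : e (π i) v = e (π j) w := h
            obtain ⟨h1, h2⟩ := he2 (π i) (π j) v v.2 w w.2 h'
            show e i v = e j w
            rw [π.injective h1, h2])
      (fun a => Set.mem_univ _) (fun a => Set.mem_univ _)
    have hR : ∀ v ∈ vs R, τ v = v := fun v hv => hτ (Sum.inl ⟨v, hv⟩)
    have hG : ∀ i, ∀ v ∈ vs G, τ (e i v) = e (π i) v := fun i v hv => hτ (Sum.inr (i, ⟨v, hv⟩))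
    have e1 : push τ (R + ∑ i ∈ Z, b i) = R + ∑ i ∈ Z, b (π i) := by
      rw [(hPUSHA J V V V k τ τ τ R (∑ i ∈ Z, b i)).1, push_id hPUSHC hPUSHA τ R hR,
        push_sum hPUSHA τ Z b]
      congr 1
      refine Finset.sum_congr rfl fun i _ => ?_
      exact push_push hPUSHA τ (e i) (e (π i)) G (hG i)
    rw [← e1]
    exact ((hPUSHC J V k τ f (R + ∑ i ∈ Z, b i) R).1 hInv).symm
  -- the value with the first copy
  have h0r : 0 < 2 * r := by omega
  have hfirst : f (R + b ⟨0, h0r⟩) = f (R + G) := by
    let x : (vs R) ⊕ (vs G) → V := fun a => match a with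
      | Sum.inl v => v
      | Sum.inr w => w
    let y : (vs R) ⊕ (vs G) → V := fun a => match a with
      | Sum.inl v => v
      | Sum.inr w => e ⟨0, h0r⟩ w
    have hd : ∀ v ∈ vs R, ∀ w ∈ vs G, v ≠ w := by
      intro v hv w hw h
      exact Set.disjoint_left.1 hdisj hv (h ▸ hw)
    obtain ⟨τ, hτ, -⟩ := hEXT V ((vs R) ⊕ (vs G)) x y Set.univ
      (by
        intro a c
        rcases a with v | v <;> rcases c with w | w
        · exact Iff.rfl
        · constructor
          · intro h
            exact absurd h (hd v v.2 w w.2)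
          · intro h
            exfalso
            apply he1 ⟨0, h0r⟩ w w.2
            have : (v : V) = e ⟨0, h0r⟩ w := h
            rw [← this]; exact v.2
        · constructor
          · intro h
            exact absurd h.symm (hd w w.2 v v.2)
          · intro h
            exfalso
            apply he1 ⟨0, h0r⟩ v v.2
            have : e ⟨0, h0r⟩ v = (w : V) := h
            rw [this]; exact w.2
        · constructor
          · intro h
            have h' : (v : V) = w := h
            show e ⟨0, h0r⟩ v = e ⟨0, h0r⟩ w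
            rw [h']
          · intro h
            have h' : e ⟨0, h0r⟩ v = e ⟨0, h0r⟩ w := h
            exact (he2 _ _ v v.2 w w.2 h').2)
      (fun a => Set.mem_univ _) (fun a => Set.mem_univ _)
    have hR : ∀ v ∈ vs R, τ v = v := fun v hv => hτ (Sum.inl ⟨v, hv⟩)
    have hG : ∀ v ∈ vs G, τ v = e ⟨0, h0r⟩ v := fun v hv => hτ (Sum.inr ⟨v, hv⟩)
    have e1 : push τ (R + G) = R + b ⟨0, h0r⟩ := by
      rw [(hPUSHA J V V V k τ τ τ R G).1, push_id hPUSHC hPUSHA τ R hR]
      congr 1
      exact (hPUSHA J V V V k τ τ (e ⟨0, h0r⟩) G G).2.2 hG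
    rw [← e1]
    exact (hPUSHC J V k τ f (R + G) R).1 hInv
  -- the function of the number of copies
  let phi : ℕ → ℝ := fun m => ind f (R + ∑ i ∈ Finset.univ.filter (fun i : Fin (2 * r) => (i : ℕ) < m), b i)
  have hind : ∀ A B : Pt J V k → ZMod 2, f A = f B → ind f A = ind f B := by
    intro A B h
    unfold ind
    rw [h]
  have hphi : ∀ Z : Finset (Fin (2 * r)), ind f (R + ∑ i ∈ Z, b i) = phi Z.card := by
    intro Z
    have hc : Z.card = (Finset.univ.filter (fun i : Fin (2 * r) => (i : ℕ) < Z.card)).card := by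
      have h1 : Z.card ≤ 2 * r := by
        have := Finset.card_le_univ Z
        simpa using this
      rw [Fin.card_filter_val_lt]
      exact (min_eq_right h1).symm
    obtain ⟨π, hπ⟩ := exists_perm_image Z _ hc
    apply hind
    rw [key π Z, ← hπ, Finset.sum_map]
    rfl
  have hphi0 : phi 0 = ind f R := by
    show ind f (R + ∑ i ∈ Finset.univ.filter (fun i : Fin (2 * r) => (i : ℕ) < 0), b i) = ind f R
    rw [Finset.filter_eq_empty_iff.2 (fun i _ => Nat.not_lt_zero _), Finset.sum_empty, add_zero]
  have hphi1 : phi 1 = ind f (R + G) := by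
    have h1 := hphi {⟨0, h0r⟩}
    rw [Finset.card_singleton, Finset.sum_singleton] at h1
    rw [← h1]
    exact hind _ _ hfirst
  have hphine : phi 0 ≠ phi 1 := by
    rw [hphi0, hphi1]
    unfold ind
    intro h
    apply hne
    cases h1 : f R <;> cases h2 : f (R + G) <;> simp [h1, h2] at h ⊢
  obtain ⟨w, hw, S, hS, hSb⟩ := hSYM (Pt J V k) (ind f) r R b phi hr
    (by
      intro A
      unfold ind
      split_ifs
      · right; rfl
      · left; rfl) hphi hphine
  refine hODD J V k r f S (fun i => b (w i)) (fun i => e (w i) '' vs G) hInv hS ?_ hSb ?_ ?_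
  · intro i t
    show par (push (e (w i)) G) t = 0
    rw [(hPUSHB J V V k (e (w i)) G).2 (fun v hv v' hv' h => (he2 _ _ v hv v' hv' h).2) t]
    exact hpar t
  · intro i
    exact (hPUSHB J V V k (e (w i)) G).1
  · intro i j hij
    rw [Set.disjoint_left]
    rintro v ⟨a, ha, rfl⟩ ⟨c, hc, h⟩
    exact hij (hw (he2 _ _ c hc a ha h).1.symm)

end Pool.Agent.XLR
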