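import Pool.Agent.XLR.Targets

set_option autoImplicit false

/-!
# STWO: small configurations in the class of `R`
-/

open scoped Classical

noncomputable section

namespace Pool.Agent.XLR

namespace HSTWO

lemma vs_zero {J V : Type} [Fintype J] [Fintype V] {k : ℕ} :
    vs (0 : Pt J V k → ZMod 2) = ∅ := by
  unfold vs
  ext v
  simp

/-- a set that avoids the vertices of all summands avoids those of the sum -/
lemma disj_sum (hPUSHC : T_PUSHC) {J V : Type} [Fintype J] [Fintype V] {k : ℕ} {ι : Type}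
    (Z : Finset ι) (b : ι → Pt J V k → ZMod 2) (D : Set V) (h : ∀ i ∈ Z, Disjoint D (vs (b i))) :
    Disjoint D (vs (∑ i ∈ Z, b i)) := by
  induction Z using Finset.induction_on with
  | empty => simp [vs_zero]
  | insert i Z hi ih =>
    rw [Finset.sum_insert hi]
    have h1 := (hPUSHC J V k (Equiv.refl V) (fun _ => true) (b i) (∑ i ∈ Z, b i)).2.2.2
    refine Disjoint.mono_right h1 ?_
    rw [Set.disjoint_union_right]
    exact ⟨h i (Finset.mem_insert_self _ _), ih fun j hj => h j (Finset.mem_insert_of_mem hj)⟩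

lemma par_zero {J V : Type} [Fintype J] [Fintype V] {k : ℕ}
    (t : J × (Fin k → Fin k → Bool)) : par (0 : Pt J V k → ZMod 2) t = 0 := by
  unfold par
  simp

lemma par_sum (hPUSHC : T_PUSHC) {J V : Type} [Fintype J] [Fintype V] {k : ℕ} {ι : Type}
    (Z : Finset ι) (b : ι → Pt J V k → ZMod 2) (h : ∀ i ∈ Z, ∀ t, par (b i) t = 0)
    (t : J × (Fin k → Fin k → Bool)) : par (∑ i ∈ Z, b i) t = 0 := by
  induction Z using Finset.induction_on with
  | empty => rw [Finset.sum_empty]; exact par_zero t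
  | insert i Z hi ih =>
    rw [Finset.sum_insert hi,
      (hPUSHC J V k (Equiv.refl V) (fun _ => true) (b i) (∑ i ∈ Z, b i)).2.2.1 t,
      h i (Finset.mem_insert_self _ _) t, ih fun j hj => h j (Finset.mem_insert_of_mem hj),
      add_zero]

/-- transport of the hypothesis on `R` to a copy of `R` -/
lemma transport (hEXT : T_EXT) (hPUSHA : T_PUSHA) (hPUSHB : T_PUSHB) (hPUSHC : T_PUSHC)
    {J V : Type} [Fintype J] [Fintype V] {k : ℕ} (f : (Pt J V k → ZMod 2) → Bool)
    (R : Pt J V k → ZMod 2) (c : Bool) (hf : Inv f)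
    (hG : ∀ G : Pt J V k → ZMod 2, (∀ t, par G t = 0) → Disjoint (vs R) (vs G) → f (R + G) = c)
    (e : V → V) (he : ∀ v ∈ vs R, ∀ w ∈ vs R, e v = e w → v = w)
    (G : Pt J V k → ZMod 2) (hp : ∀ t, par G t = 0) (hd : Disjoint (e '' vs R) (vs G)) :
    f (push e R + G) = c := by
  obtain ⟨τ, hτ, -⟩ := hEXT V (vs R) (fun v => v.1) (fun v => e v.1) Set.univ
    (fun a b => ⟨fun h => congrArg e h, fun h => he _ a.2 _ b.2 h⟩)
    (fun _ => Set.mem_univ _) (fun _ => Set.mem_univ _)
  have h1 : push e R = push τ R :=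
    (hPUSHA J V V V k τ e τ R R).2.2 fun v hv => (hτ ⟨v, hv⟩).symm
  have h2 : push τ (push τ.symm G) = G := by
    rw [(hPUSHA J V V V k τ τ.symm τ.symm G G).2.1]
    have e1 : (fun v => τ (τ.symm v)) = fun v : V => v := by
      funext v
      simp
    rw [e1]
    exact (hPUSHC J V k τ f G G).2.1
  have h3 : f (push e R + G) = f (R + push τ.symm G) := by
    rw [h1]
    conv_lhs => rw [← h2]
    rw [← (hPUSHA J V V V k τ τ τ R (push τ.symm G)).1]
    exact (hPUSHC J V k τ f (R + push τ.symm G) G).1 hf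
  rw [h3]
  refine hG _ (fun t => ?_) ?_
  · rw [(hPUSHB J V V k τ.symm G).2 (fun v _ w _ h => τ.symm.injective h) t]
    exact hp t
  · refine Disjoint.mono_right (hPUSHB J V V k τ.symm G).1 ?_
    rw [Set.disjoint_left]
    rintro v hv ⟨w, hw, hwv⟩
    have h4 : τ v = w := by rw [← hwv]; simp
    have h5 : e v = w := by rw [← h4]; exact (hτ ⟨v, hv⟩).symm
    exact (Set.disjoint_left.1 hd) ⟨v, hv, h5⟩ hw

end HSTWO

open HSTWO in
theorem p_STWO (hAND : T_AND) (hODD : T_ODD) (hEXT : T_EXT) (hCOPY : T_COPY) (hPUSHA : T_PUSHA)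
    (hPUSHB : T_PUSHB) (hPUSHC : T_PUSHC) : T_STWO := by
  intro J V _ _ k r f R B c hr hf hpar hBc hG hcard
  obtain ⟨e, he1, he2⟩ := hCOPY V (2 * r) (vs R) (vs B) hcard
  obtain ⟨ev, hev⟩ : ∃ ev : Fin r → Fin (2 * r), ∀ i, (ev i : ℕ) = 2 * i :=
    ⟨fun i => ⟨2 * i, by omega⟩, fun i => rfl⟩
  obtain ⟨od, hod⟩ : ∃ od : Fin r → Fin (2 * r), ∀ i, (od i : ℕ) = 2 * i + 1 :=
    ⟨fun i => ⟨2 * i + 1, by omega⟩, fun i => rfl⟩
  have hee : ∀ i j, i ≠ j → ev i ≠ ev j := by
    intro i j hij h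
    have := congrArg Fin.val h
    rw [hev, hev] at this
    exact hij (Fin.ext (by omega))
  have hoo : ∀ i j, i ≠ j → od i ≠ od j := by
    intro i j hij h
    have := congrArg Fin.val h
    rw [hod, hod] at this
    exact hij (Fin.ext (by omega))
  have heo : ∀ i j, ev i ≠ od j := by
    intro i j h
    have := congrArg Fin.val h
    rw [hev, hod] at this
    omega
  have hinj : ∀ j, ∀ v ∈ vs R, ∀ w ∈ vs R, e j v = e j w → v = w := fun j v hv w hw h =>
    (he2 j j v hv w hw h).2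
  have hvs : ∀ j, vs (push (e j) R) ⊆ e j '' vs R := fun j => (hPUSHB J V V k (e j) R).1
  have hpp : ∀ j t, par (push (e j) R) t = par R t := fun j =>
    (hPUSHB J V V k (e j) R).2 (hinj j)
  have hdis : ∀ i j, i ≠ j → Disjoint (e i '' vs R) (e j '' vs R) := by
    intro i j hij
    rw [Set.disjoint_left]
    rintro _ ⟨v, hv, rfl⟩ ⟨w, hw, hwv⟩
    exact hij (he2 i j v hv w hw hwv.symm).1
  have hdis' : ∀ i j, i ≠ j → Disjoint (e i '' vs R) (vs (push (e j) R)) := fun i j hij =>
    Disjoint.mono_right (hvs j) (hdis i j hij)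
  have hdisB : ∀ i, Disjoint (e i '' vs R) (vs B) := by
    intro i
    rw [Set.disjoint_left]
    rintro _ ⟨v, hv, rfl⟩ hw
    exact he1 i v hv hw
  have hadd : ∀ (A A' : Pt J V k → ZMod 2) t, par (A + A') t = par A t + par A' t :=
    fun A A' => (hPUSHC J V k (Equiv.refl V) f A A').2.2.1
  have hvadd : ∀ A A' : Pt J V k → ZMod 2, vs (A + A') ⊆ vs A ∪ vs A' :=
    fun A A' => (hPUSHC J V k (Equiv.refl V) f A A').2.2.2
  set b : Fin r → Pt J V k → ZMod 2 := fun i => push (e (ev i)) R + push (e (od i)) R with hb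
  have hb0 : ∀ i t, par (b i) t = 0 := by
    intro i t
    rw [hb]
    simp only
    rw [hadd, hpp, hpp]
    exact CharTwo.add_self_eq_zero _
  have hclaim : ∀ Z : Finset (Fin r), Z.Nonempty → f (B + ∑ i ∈ Z, b i) = c := by
    intro Z hZ
    obtain ⟨i0, hi0⟩ := hZ
    have e1 : B + ∑ i ∈ Z, b i =
        push (e (ev i0)) R + (B + push (e (od i0)) R + ∑ i ∈ Z.erase i0, b i) := by
      rw [← Finset.add_sum_erase Z b hi0]
      rw [hb]
      simp only
      abel
    rw [e1]
    refine transport hEXT hPUSHA hPUSHB hPUSHC f R c hf hG (e (ev i0)) (hinj _) _ (fun t => ?_) ?_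
    · rw [hadd, hadd, hpp, hpar, par_sum hPUSHC _ _ (fun i _ => hb0 i), add_zero]
      exact CharTwo.add_self_eq_zero _
    · refine Disjoint.mono_right (hvadd _ _) ?_
      rw [Set.disjoint_union_right]
      refine ⟨?_, ?_⟩
      · refine Disjoint.mono_right (hvadd _ _) ?_
        rw [Set.disjoint_union_right]
        exact ⟨hdisB _, hdis' _ _ (heo _ _)⟩
      · refine disj_sum hPUSHC _ _ _ fun i hi => ?_
        have hne : i0 ≠ i := (Finset.ne_of_mem_erase hi).symm
        refine Disjoint.mono_right (hvadd _ _) ?_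
        rw [Set.disjoint_union_right]
        exact ⟨hdis' _ _ (hee _ _ hne), hdis' _ _ (heo _ _)⟩
  obtain ⟨S, hS, hSb⟩ := hAND (Pt J V k) (ind f) r B b (if c = true then 1 else 0) hr
    (by
      unfold ind
      cases hc : c <;> cases hfb : f B <;> simp_all)
    (fun Z hZ => by
      unfold ind
      rw [hclaim Z hZ])
  refine hODD J V k r f S b (fun i => e (ev i) '' vs R ∪ e (od i) '' vs R) hf hS hb0 hSb
    (fun i => ?_) (fun i j hij => ?_)
  · exact (hvadd _ _).trans (Set.union_subset_union (hvs _) (hvs _))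
  · rw [Set.disjoint_union_left, Set.disjoint_union_right, Set.disjoint_union_right]
    exact ⟨⟨hdis _ _ (hee _ _ hij), hdis _ _ (heo _ _)⟩,
      ⟨(hdis _ _ (heo _ _)).symm, hdis _ _ (hoo _ _ hij)⟩⟩

end Pool.Agent.XLR
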