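import Pool.Agent.XLR.Targets

set_option autoImplicit false

/-!
# MP_9f5962_lc: XOR functions of bounded arity, target SUBM

The rank under pull back.
-/

open scoped Classical

noncomputable section

namespace Pool.Agent.XLR

theorem p_SUBM : T_SUBM := by
  intro X Y _ _ f L hL
  have h : xmat (fun A => f (L A)) = (xmat f).submatrix L L := by
    ext x y
    simp only [xmat, Matrix.of_apply, Matrix.submatrix_apply, hL]
  rw [h]
  exact Matrix.rank_submatrix_le (xmat f) L L

end Pool.Agent.XLR
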