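import Pool.Agent.XLR.Targets

open scoped Classical

namespace Pool.Agent.XLR

namespace HSUNF

/-- the conclusion -/
def Con {V : Type} (k m : ℕ) (G : Finset (Fin k → V)) : Prop :=
  ∃ (D : Finset (Fin k)) (t : Fin m → Fin k → V), D.Nonempty ∧ (∀ i, t i ∈ G) ∧
    (∀ i j, ∀ a, a ∉ D → t i a = t j a) ∧
    (∀ i j, i ≠ j → ∀ a ∈ D, ∀ b ∈ D, t i a ≠ t j b) ∧
    (∀ i j, ∀ a ∈ D, ∀ b, b ∉ D → t i a ≠ t j b)

theorem step {V : Type} [Fintype V] (k m n : ℕ)
    (IH : ∀ (D : Finset (Fin k)) (G : Finset (Fin k → V)), D.card = n →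
      (∀ t ∈ G, ∀ t' ∈ G, ∀ a, a ∉ D → t a = t' a) → (k * k * (m + 1)) ^ n < G.card →
      Con k m G)
    (D : Finset (Fin k)) (G : Finset (Fin k → V)) (hD : D.card = n + 1)
    (hag : ∀ t ∈ G, ∀ t' ∈ G, ∀ a, a ∉ D → t a = t' a)
    (hG : (k * k * (m + 1)) ^ (n + 1) < G.card) : Con k m G := by
  have hDne : D.Nonempty := by
    rw [← Finset.card_pos]
    omega
  have hGne : G.Nonempty := by
    rw [← Finset.card_pos]
    omega
  obtain ⟨g0, hg0⟩ := hGne
  obtain ⟨d0, hd0⟩ := hDne
  let C : Finset V := (Finset.univ \ D).image g0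
  let Val : Finset (Fin k → V) → Prop := fun T =>
    T ⊆ G ∧ (∀ t ∈ T, ∀ a ∈ D, t a ∉ C) ∧
      (∀ t ∈ T, ∀ t' ∈ T, t ≠ t' → ∀ a ∈ D, ∀ b ∈ D, t a ≠ t' b)
  have hne : (Finset.univ.filter (fun T : Finset (Fin k → V) => Val T)).Nonempty := by
    refine ⟨∅, ?_⟩
    simp only [Finset.mem_filter, Finset.mem_univ, true_and]
    exact ⟨Finset.empty_subset _, by simp, by simp⟩
  obtain ⟨T, hT, hmax⟩ := Finset.exists_max_image _ Finset.card hne
  simp only [Finset.mem_filter, Finset.mem_univ, true_and] at hT hmax
  obtain ⟨hT1, hT2, hT3⟩ := hT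
  by_cases hm : m ≤ T.card
  · -- enough petals
    obtain ⟨T', hT', hcard⟩ := Finset.exists_subset_card_eq hm
    let e : Fin m ≃ T' := (T'.equivFinOfCardEq hcard).symm
    refine ⟨D, fun i => (e i).1, ⟨d0, hd0⟩, fun i => hT1 (hT' (e i).2), ?_, ?_, ?_⟩
    · intro i j a ha
      exact hag _ (hT1 (hT' (e i).2)) _ (hT1 (hT' (e j).2)) a ha
    · intro i j hij a ha b hb
      refine hT3 _ (hT' (e i).2) _ (hT' (e j).2) ?_ a ha b hb
      intro h
      exact hij (e.injective (Subtype.ext h))
    · intro i j a ha b hb h
      apply hT2 _ (hT' (e i).2) a ha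
      rw [Finset.mem_image]
      refine ⟨b, by simp [hb], ?_⟩
      have h' : (e i).1 a = (e j).1 b := h
      rw [h']
      exact hag _ hg0 _ (hT1 (hT' (e j).2)) b hb
  · push Not at hm
    let H : Finset V := C ∪ T.biUnion (fun t => D.image t)
    have hH : H.card ≤ k * (m + 1) := by
      have h1 : C.card ≤ k := by
        refine Finset.card_image_le.trans ?_
        refine (Finset.card_le_univ _).trans ?_
        simp
      have h2 : (T.biUnion (fun t => D.image t)).card ≤ T.card * k := by
        refine Finset.card_biUnion_le_card_mul _ _ _ ?_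
        intro t _
        refine Finset.card_image_le.trans ?_
        refine (Finset.card_le_univ _).trans ?_
        simp
      have h3 : T.card * k ≤ m * k := Nat.mul_le_mul_right _ hm.le
      calc H.card ≤ C.card + (T.biUnion (fun t => D.image t)).card := Finset.card_union_le _ _
        _ ≤ k + m * k := by omega
        _ = k * (m + 1) := by ring
    have hcov : ∀ t ∈ G, ∃ a ∈ D, t a ∈ H := by
      intro t ht
      by_contra hcon
      push Not at hcon
      by_cases htT : t ∈ T
      · refine hcon d0 hd0 (Finset.mem_union_right _ ?_)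
        rw [Finset.mem_biUnion]
        exact ⟨t, htT, Finset.mem_image_of_mem _ hd0⟩
      · have hv : Val (insert t T) := by
          refine ⟨Finset.insert_subset ht hT1, ?_, ?_⟩
          · intro t' ht' a ha
            rw [Finset.mem_insert] at ht'
            rcases ht' with rfl | ht'
            · intro h
              exact hcon a ha (Finset.mem_union_left _ h)
            · exact hT2 t' ht' a ha
          · intro t1 h1 t2 h2 hne a ha b hb
            rw [Finset.mem_insert] at h1 h2
            rcases h1 with rfl | h1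
            · rcases h2 with rfl | h2
              · exact absurd rfl hne
              · intro h
                refine hcon a ha (Finset.mem_union_right _ ?_)
                rw [Finset.mem_biUnion]
                exact ⟨t2, h2, by rw [h]; exact Finset.mem_image_of_mem _ hb⟩
            · rcases h2 with rfl | h2
              · intro h
                refine hcon b hb (Finset.mem_union_right _ ?_)
                rw [Finset.mem_biUnion]
                exact ⟨t1, h1, by rw [← h]; exact Finset.mem_image_of_mem _ ha⟩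
              · exact hT3 t1 h1 t2 h2 hne a ha b hb
        have h1 := hmax _ hv
        rw [Finset.card_insert_of_notMem htT] at h1
        omega
    have : Nonempty (Fin k) := ⟨d0⟩
    choose! f hf1 hf2 using hcov
    have hmaps : ∀ t ∈ G, (f t, t (f t)) ∈ D ×ˢ H := by
      intro t ht
      rw [Finset.mem_product]
      exact ⟨hf1 t ht, hf2 t ht⟩
    have hcard : (D ×ˢ H).card * (k * k * (m + 1)) ^ n < G.card := by
      refine lt_of_le_of_lt ?_ hG
      rw [pow_succ, mul_comm]
      refine Nat.mul_le_mul_left _ ?_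
      rw [Finset.card_product]
      have h1 : D.card ≤ k := by
        refine (Finset.card_le_univ _).trans ?_
        simp
      calc D.card * H.card ≤ k * (k * (m + 1)) := Nat.mul_le_mul h1 hH
        _ = k * k * (m + 1) := by ring
    obtain ⟨⟨a, h⟩, hah, hbig⟩ :=
      Finset.exists_lt_card_fiber_of_mul_lt_card_of_maps_to hmaps hcard
    rw [Finset.mem_product] at hah
    have hres := IH (D.erase a) (G.filter (fun t => t a = h))
      (by rw [Finset.card_erase_of_mem hah.1]; omega) ?_ ?_
    · obtain ⟨D', t, h1, h2, h3⟩ := hres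
      exact ⟨D', t, h1, fun i => (Finset.mem_filter.1 (h2 i)).1, h3⟩
    · intro t ht t' ht' b hb
      rw [Finset.mem_filter] at ht ht'
      by_cases hba : b = a
      · rw [hba, ht.2, ht'.2]
      · refine hag t ht.1 t' ht'.1 b ?_
        intro hbD
        exact hb (Finset.mem_erase.2 ⟨hba, hbD⟩)
    · refine lt_of_lt_of_le hbig (Finset.card_le_card ?_)
      intro t ht
      rw [Finset.mem_filter] at ht ⊢
      refine ⟨ht.1, ?_⟩
      have h1 : f t = a := (Prod.mk.inj ht.2).1
      have h2 : t (f t) = h := (Prod.mk.inj ht.2).2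
      rw [← h1]
      exact h2

theorem all {V : Type} [Fintype V] (k m n : ℕ) :
    ∀ (D : Finset (Fin k)) (G : Finset (Fin k → V)), D.card = n →
      (∀ t ∈ G, ∀ t' ∈ G, ∀ a, a ∉ D → t a = t' a) → (k * k * (m + 1)) ^ n < G.card →
      Con k m G := by
  induction n with
  | zero =>
    intro D G hD hag hG
    exfalso
    rw [pow_zero, Finset.one_lt_card] at hG
    obtain ⟨s, hs, t, ht, hst⟩ := hG
    apply hst
    funext a
    refine hag s hs t ht a ?_
    rw [Finset.card_eq_zero.1 hD]
    simp
  | succ n IH =>
    intro D G hD hag hG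
    exact step k m n IH D G hD hag hG

end HSUNF

theorem p_SUNF : T_SUNF := by
  intro V _ k m G hG
  refine HSUNF.all k m k Finset.univ G (by simp) ?_ hG
  intro t _ t' _ a ha
  exact absurd (Finset.mem_univ a) ha

end Pool.Agent.XLR
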