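import Pool.Agent.XLR.Targets

set_option autoImplicit false

open scoped Classical

noncomputable section

namespace Pool.Agent.XLR

theorem p_SYM (hFOUR : T_FOUR) (hNEWT : T_NEWT) : T_SYM := by
  intro X _ F r a b phi hr h01 hphi hne
  by_contra hcon
  apply hne
  refine hNEWT r phi hr ?_ ?_
  · intro m hm
    obtain ⟨Z, -, hZ⟩ := Finset.exists_subset_card_eq
      (s := (Finset.univ : Finset (Fin (2 * r)))) (n := m) (by simpa using hm)
    rw [← hZ, ← hphi Z]
    exact h01 _
  · intro m hm
    -- the first r indices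
    set w : Fin r → Fin (2 * r) := fun i => ⟨i.1, by omega⟩ with hw
    have hwi : Function.Injective w := by
      intro i j hij
      apply Fin.ext
      have := congrArg Fin.val hij
      simpa [hw] using this
    set Z0 : Finset (Fin (2 * r)) := Finset.univ.filter (fun i => r ≤ i.1 ∧ i.1 < r + m) with hZ0
    have hZ0c : Z0.card = m := by
      have h1 : Z0 = (Finset.univ : Finset (Fin m)).map
          ⟨fun i => (⟨r + i.1, by omega⟩ : Fin (2 * r)), by
            intro i j hij
            apply Fin.ext
            have := congrArg Fin.val hij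
            simp at this
            omega⟩ := by
        ext i
        simp only [hZ0, Finset.mem_filter, Finset.mem_univ, true_and, Finset.mem_map,
          Function.Embedding.coeFn_mk]
        constructor
        · rintro ⟨h1, h2⟩
          refine ⟨⟨i.1 - r, by omega⟩, ?_⟩
          apply Fin.ext
          simp
          omega
        · rintro ⟨j, rfl⟩
          simp
      rw [h1, Finset.card_map]
      simp
    have hdisj : ∀ Z : Finset (Fin r), Disjoint Z0 (Z.map ⟨w, hwi⟩) := by
      intro Z
      rw [Finset.disjoint_left]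
      intro i hi hi2
      simp only [hZ0, Finset.mem_filter, Finset.mem_univ, true_and] at hi
      simp only [Finset.mem_map, Function.Embedding.coeFn_mk] at hi2
      obtain ⟨j, -, rfl⟩ := hi2
      simp only [hw] at hi
      omega
    have hval : ∀ Z : Finset (Fin r), F (a + ∑ i ∈ Z0, b i + ∑ i ∈ Z, b (w i)) =
        phi (m + Z.card) := by
      intro Z
      have h1 : a + ∑ i ∈ Z0, b i + ∑ i ∈ Z, b (w i) =
          a + ∑ i ∈ Z0 ∪ Z.map ⟨w, hwi⟩, b i := by
        rw [Finset.sum_union (hdisj Z), Finset.sum_map, add_assoc]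
        rfl
      rw [h1, hphi, Finset.card_union_of_disjoint (hdisj Z), Finset.card_map, hZ0c]
    have hsum : ∑ Z : Finset (Fin r), (-1 : ℝ) ^ Z.card *
        F (a + ∑ i ∈ Z0, b i + ∑ i ∈ Z, b (w i)) = 0 := by
      by_contra h0
      obtain ⟨S, hS1, hS2⟩ := hFOUR X F r (a + ∑ i ∈ Z0, b i) (fun i => b (w i)) h0
      exact hcon ⟨w, hwi, S, hS1, hS2⟩
    have h2 := Finset.sum_powerset_apply_card (fun j : ℕ => (-1 : ℝ) ^ j * phi (m + j))
      (x := (Finset.univ : Finset (Fin r)))
    rw [Finset.powerset_univ, Finset.card_univ, Fintype.card_fin] at h2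
    have h3 : ∑ Z : Finset (Fin r), (-1 : ℝ) ^ Z.card *
        F (a + ∑ i ∈ Z0, b i + ∑ i ∈ Z, b (w i)) =
        ∑ Z : Finset (Fin r), (-1 : ℝ) ^ Z.card * phi (m + Z.card) :=
      Finset.sum_congr rfl (fun Z _ => by rw [hval Z])
    rw [← hsum, h3, h2]
    refine Finset.sum_congr rfl ?_
    intro j _
    rw [nsmul_eq_mul]
    ring

end Pool.Agent.XLR
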