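import Pool.Agent.XLR.Targets

set_option autoImplicit false

/-!
# TRANS: independent exchanges give many sets in the Fourier support
-/

open scoped Classical

noncomputable section

namespace Pool.Agent.XLR

namespace HTRANS

variable {J V : Type} {k : ℕ}

lemma mv_one (p : Pt J V k) : mv (⇑(1 : Equiv.Perm V)) p = p := rfl

lemma mv_mul (σ τ : Equiv.Perm V) (p : Pt J V k) : mv (⇑(σ * τ)) p = mv σ (mv τ p) := rfl

/-- moving the points is a bijection -/
def mvE (J : Type) {V : Type} (k : ℕ) (σ : Equiv.Perm V) : Pt J V k ≃ Pt J V k :=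
  Equiv.prodCongr (Equiv.refl J) (Equiv.arrowCongr (Equiv.refl (Fin k)) σ)

lemma mvE_apply (σ : Equiv.Perm V) (p : Pt J V k) : mvE J k σ p = mv σ p := rfl

lemma fh_mv [Fintype J] [Fintype V] (f : (Pt J V k → ZMod 2) → Bool) (hf : Inv f)
    (S : Pt J V k → ZMod 2) (σ : Equiv.Perm V) :
    fh (ind f) (fun p => S (mv σ p)) = fh (ind f) S := by
  unfold fh
  letI : DecidableEq (Pt J V k) := fun a b => Classical.propDecidable (a = b)
  set e : (Pt J V k → ZMod 2) ≃ (Pt J V k → ZMod 2) :=
    Equiv.arrowCongr (mvE J k σ).symm (Equiv.refl (ZMod 2)) with he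
  have hea : ∀ A : Pt J V k → ZMod 2, e A = fun p => A (mv σ p) := fun A => rfl
  symm
  refine Finset.sum_nbij' (fun A => e A) (fun A => e.symm A) (fun A _ => Finset.mem_univ _)
    (fun A _ => Finset.mem_univ _) (fun A _ => e.symm_apply_apply A)
    (fun A _ => e.apply_symm_apply A) fun A _ => ?_
  have h1 : ind f (e A) = ind f A := by
    unfold ind
    rw [hea, hf σ A]
  have h2 : ip (fun p => S (mv σ p)) (e A) = ip S A := by
    unfold ip
    rw [hea]
    exact Equiv.sum_comp (mvE J k σ) (fun p => S p * A p)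
  unfold chi
  rw [h1, h2]

end HTRANS

open HTRANS in
theorem p_TRANS : T_TRANS := by
  intro J V _ _ k r f S x y hf hS hp hne
  obtain ⟨τ, h1, h2⟩ := hp
  have hσ : ∀ Z : Finset (Fin r), ∃ σ : Equiv.Perm V, (∀ i ∈ Z, mv σ (x i) = y i) ∧
      ∀ i, i ∉ Z → mv σ (x i) = x i ∧ mv σ (y i) = y i := by
    intro Z
    induction Z using Finset.induction_on with
    | empty => exact ⟨1, fun i hi => absurd hi (by simp), fun i _ => ⟨rfl, rfl⟩⟩
    | insert j Z hj ih =>
      obtain ⟨σ, h3, h4⟩ := ih
      refine ⟨τ j * σ, fun i hi => ?_, fun i hi => ?_⟩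
      · rw [mv_mul]
        rw [Finset.mem_insert] at hi
        rcases hi with rfl | hi
        · rw [(h4 i hj).1, h1]
        · have hji : j ≠ i := fun h => hj (h ▸ hi)
          rw [h3 i hi, (h2 i j hji).2]
      · rw [Finset.mem_insert, not_or] at hi
        have hji : j ≠ i := fun h => hi.1 h.symm
        rw [mv_mul, mv_mul, (h4 i hi.2).1, (h4 i hi.2).2]
        exact h2 i j hji
  choose σ h3 h4 using hσ
  set g : Finset (Fin r) → (Pt J V k → ZMod 2) := fun Z p => S (mv (σ Z) p) with hg
  have hginj : Function.Injective g := by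
    intro Z Z' h
    have key : ∀ Z Z', g Z = g Z' → Z ⊆ Z' := by
      intro Z Z' h i hi
      by_contra hi'
      have h5 := congrFun h (x i)
      simp only [hg] at h5
      rw [h3 Z i hi, (h4 Z' i hi').1] at h5
      exact hne i h5.symm
    exact Finset.Subset.antisymm (key Z Z' h) (key Z' Z h.symm)
  have hsub : g '' Set.univ ⊆ {S : Pt J V k → ZMod 2 | fh (ind f) S ≠ 0} := by
    rintro _ ⟨Z, _, rfl⟩
    have : fh (ind f) (g Z) = fh (ind f) S := fh_mv f hf S (σ Z)
    rw [Set.mem_ofPred_eq, this]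
    exact hS
  have hcard := Set.ncard_le_ncard hsub (Set.toFinite _)
  rw [Set.ncard_image_of_injective _ hginj, Set.ncard_univ, Nat.card_eq_fintype_card,
    Fintype.card_finset, Fintype.card_fin] at hcard
  exact hcard

end Pool.Agent.XLR
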