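import Pool.Agent.XLR.Targets

set_option autoImplicit false

open scoped Classical

noncomputable section

namespace Pool.Agent.XLR

theorem HAND_alt (r : ℕ) (hr : 0 < r) : ∑ Z : Finset (Fin r), (-1 : ℝ) ^ Z.card = 0 := by
  have h := Finset.sum_powerset_neg_one_pow_card_of_nonempty (x := (Finset.univ : Finset (Fin r)))
    ⟨⟨0, hr⟩, Finset.mem_univ _⟩
  rw [Finset.powerset_univ] at h
  exact_mod_cast h

theorem p_AND (hFOUR : T_FOUR) : T_AND := by
  intro X _ F r a b c hr ha hZ
  refine hFOUR X F r a b ?_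
  have h1 : ∑ Z : Finset (Fin r), (-1 : ℝ) ^ Z.card * F (a + ∑ i ∈ Z, b i) =
      ∑ Z : Finset (Fin r), ((-1 : ℝ) ^ Z.card * c + if Z = ∅ then F a - c else 0) := by
    refine Finset.sum_congr rfl ?_
    intro Z _
    by_cases h : Z = ∅
    · subst h
      simp
    · rw [hZ Z (Finset.nonempty_iff_ne_empty.2 h), if_neg h, add_zero]
  rw [h1, Finset.sum_add_distrib, ← Finset.sum_mul, HAND_alt r hr, Finset.sum_ite_eq']
  simp only [Finset.mem_univ, if_true, zero_mul, zero_add]
  exact sub_ne_zero.2 ha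

end Pool.Agent.XLR
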