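import Mathlib

set_option autoImplicit false

/-!
# MP_9f5962_lc: the log-rank conjecture for XOR functions: definitions

`f : (X → ZMod 2) → Bool` is a Boolean function on `F_2^X`, `X` a finite set.
-/

open scoped Classical

noncomputable section

namespace Pool.Agent.XLR

/-! ## Fourier analysis on `F_2^X` -/

section Fourier

variable {X : Type} [Fintype X]

/-- The pairing `⟨S, A⟩ = ∑ x, S x * A x` in `F_2`. -/
def ip (S A : X → ZMod 2) : ZMod 2 := ∑ x, S x * A x

/-- The character `(-1)^⟨S, A⟩`. -/
def chi (S A : X → ZMod 2) : ℝ := if ip S A = 0 then 1 else -1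

/-- The unnormalised Fourier coefficient `∑ A, F A * (-1)^⟨S, A⟩`. -/
def fh (F : (X → ZMod 2) → ℝ) (S : X → ZMod 2) : ℝ := ∑ A, F A * chi S A

/-- The Fourier sparsity. -/
def spar (F : (X → ZMod 2) → ℝ) : ℕ := Set.ncard {S : X → ZMod 2 | fh F S ≠ 0}

/-- The `0/1` valued real function of a Boolean function. -/
def ind (f : (X → ZMod 2) → Bool) (A : X → ZMod 2) : ℝ := if f A = true then 1 else 0

/-- The matrix of the XOR function `f (x + y)`. -/
def xmat (f : (X → ZMod 2) → Bool) : Matrix (X → ZMod 2) (X → ZMod 2) ℝ :=
  Matrix.of (fun x y : X → ZMod 2 => if f (x + y) = true then (1 : ℝ) else 0)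

/-- `f (x + y)` has a deterministic two-party protocol of cost `d` (the encoding of the frozen
statement `S15125`). -/
def Prot (f : (X → ZMod 2) → Bool) (d : ℕ) : Prop :=
  ∃ owner : List Bool → Bool,
  ∃ A : List Bool → (X → ZMod 2) → Bool,
  ∃ B : List Bool → (X → ZMod 2) → Bool,
  ∃ out : List Bool → Bool,
    ∀ x y : X → ZMod 2, ∀ t : List Bool, t.length = d →
      (∀ i : ℕ, i < d →
        t[i]? = some (if owner (t.take i) then A (t.take i) x else B (t.take i) y)) →
      out t = f (x + y)

end Fourier

/-! ## Configurations of coloured tuples -/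

/-- Points: a colour in `J` and a `k`-tuple of vertices. -/
abbrev Pt (J V : Type) (k : ℕ) : Type := J × (Fin k → V)

section Tuples

variable {J V W : Type} {k : ℕ}

/-- Moving a point by a map of the vertices. -/
def mv (h : V → W) (x : Pt J V k) : Pt J W k := (x.1, fun a => h (x.2 a))

/-- The type of a point: its colour and the equality pattern of the tuple. -/
def ty (x : Pt J V k) : J × (Fin k → Fin k → Bool) :=
  (x.1, fun a b => decide (x.2 a = x.2 b))

variable [Fintype J] [Fintype V] [Fintype W]

/-- The parities of a configuration: number of points of each type modulo 2. -/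
def par (A : Pt J V k → ZMod 2) (t : J × (Fin k → Fin k → Bool)) : ZMod 2 :=
  ∑ x, if ty x = t then A x else 0

/-- The vertices used by a configuration. -/
def vs (A : Pt J V k → ZMod 2) : Set V := {v | ∃ x, A x ≠ 0 ∧ ∃ a, x.2 a = v}

/-- The number of points of a configuration. -/
def sz (A : Pt J V k → ZMod 2) : ℕ := Set.ncard {x | A x ≠ 0}

/-- Pushing a configuration forward along a map of the vertices. -/
def push (h : V → W) (A : Pt J V k → ZMod 2) (y : Pt J W k) : ZMod 2 :=
  ∑ x, if mv h x = y then A x else 0

/-- Invariance under all permutations of the vertices. -/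
def Inv (f : (Pt J V k → ZMod 2) → Bool) : Prop :=
  ∀ (σ : Equiv.Perm V) (A : Pt J V k → ZMod 2), f (fun x => A (mv σ x)) = f A

end Tuples

/-- The size from which on sunflowers exist. -/
def eb (q k r : ℕ) : ℕ := q * 2 ^ (k * k) * (k * k * (2 * r + 1)) ^ k

/-- The number of vertices from which on the sparsity is at least `2^r`. -/
def nb (q k r : ℕ) : ℕ := k * (q * 2 ^ (k * k) + eb q k r) * (2 * r + 1)

end Pool.Agent.XLR
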