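import Pool.Agent.XLR.Defs

set_option autoImplicit false

/-!
# MP_9f5962_lc: the log-rank conjecture for XOR functions of bounded arity: targets

Proofs: `Blueprint.lean.txt`. All decidability is classical.
-/

open scoped Classical

noncomputable section

namespace Pool.Agent.XLR

/-! ## A. General finite `X` -/

/-- FOUR: an alternating sum over a cube detects a set of the Fourier support that is odd on all
blocks. -/
def T_FOUR : Prop := ∀ (X : Type) [Fintype X] (F : (X → ZMod 2) → ℝ) (r : ℕ) (a : X → ZMod 2)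
  (b : Fin r → X → ZMod 2),
  ∑ Z : Finset (Fin r), (-1 : ℝ) ^ Z.card * F (a + ∑ i ∈ Z, b i) ≠ 0 →
  ∃ S, fh F S ≠ 0 ∧ ∀ i, ip S (b i) = 1

/-- AND: blocks of AND type. -/
def T_AND : Prop := ∀ (X : Type) [Fintype X] (F : (X → ZMod 2) → ℝ) (r : ℕ) (a : X → ZMod 2)
  (b : Fin r → X → ZMod 2) (c : ℝ), 0 < r → F a ≠ c →
  (∀ Z : Finset (Fin r), Z.Nonempty → F (a + ∑ i ∈ Z, b i) = c) →
  ∃ S, fh F S ≠ 0 ∧ ∀ i, ip S (b i) = 1

/-- NEWT: a `0/1` valued function on `0, ..., 2r` whose differences of order `r` vanish is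
constant. -/
def T_NEWT : Prop := ∀ (r : ℕ) (phi : ℕ → ℝ), 0 < r →
  (∀ m, m ≤ 2 * r → phi m = 0 ∨ phi m = 1) →
  (∀ m, m ≤ r → ∑ j ∈ Finset.range (r + 1), (-1 : ℝ) ^ j * (r.choose j : ℝ) * phi (m + j) = 0) →
  phi 0 = phi 1

/-- SYM: blocks of symmetric type. -/
def T_SYM : Prop := ∀ (X : Type) [Fintype X] (F : (X → ZMod 2) → ℝ) (r : ℕ) (a : X → ZMod 2)
  (b : Fin (2 * r) → X → ZMod 2) (phi : ℕ → ℝ), 0 < r → (∀ A, F A = 0 ∨ F A = 1) →
  (∀ Z : Finset (Fin (2 * r)), F (a + ∑ i ∈ Z, b i) = phi Z.card) → phi 0 ≠ phi 1 →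
  ∃ w : Fin r → Fin (2 * r), Function.Injective w ∧
    ∃ S, fh F S ≠ 0 ∧ ∀ i, ip S (b (w i)) = 1

/-- RANK: the rank of the matrix of `f (x + y)` is at least the Fourier sparsity of `f`. -/
def T_RANK : Prop := ∀ (X : Type) [Fintype X] (f : (X → ZMod 2) → Bool),
  spar (ind f) ≤ (xmat f).rank

/-- PROT: if `f` depends only on a linear map with values in `F_2^ι` there is a protocol of cost
`|ι| + 1`. -/
def T_PROT : Prop := ∀ (X ι : Type) [Fintype X] [Fintype ι]
  (L : (X → ZMod 2) → (ι → ZMod 2)) (f : (X → ZMod 2) → Bool),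
  (∀ A B, L (A + B) = L A + L B) → (∀ A B, L A = L B → f A = f B) →
  Prot f (Fintype.card ι + 1)

/-! ## B. Tuples -/

/-- EXT: a partial injection inside a finite set of vertices extends to a permutation supported
there. -/
def T_EXT : Prop := ∀ (V ι : Type) [Fintype V] (x y : ι → V) (U : Set V),
  (∀ a b, x a = x b ↔ y a = y b) → (∀ a, x a ∈ U) → (∀ a, y a ∈ U) →
  ∃ τ : Equiv.Perm V, (∀ a, τ (x a) = y a) ∧ ∀ v, v ∉ U → τ v = v

/-- SUNF: aligned sunflowers of tuples. -/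
def T_SUNF : Prop := ∀ (V : Type) [Fintype V] (k m : ℕ) (G : Finset (Fin k → V)),
  (k * k * (m + 1)) ^ k < G.card →
  ∃ (D : Finset (Fin k)) (t : Fin m → Fin k → V), D.Nonempty ∧ (∀ i, t i ∈ G) ∧
    (∀ i j, ∀ a, a ∉ D → t i a = t j a) ∧
    (∀ i j, i ≠ j → ∀ a ∈ D, ∀ b ∈ D, t i a ≠ t j b) ∧
    (∀ i j, ∀ a ∈ D, ∀ b, b ∉ D → t i a ≠ t j b)

/-- The data of `r` disjoint pairs of points that can be exchanged independently. -/
def Pairs {J V : Type} {k r : ℕ} (x y : Fin r → Pt J V k) : Prop :=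
  ∃ τ : Fin r → Equiv.Perm V, (∀ i, mv (τ i) (x i) = y i) ∧
    ∀ i j, j ≠ i → mv (τ j) (x i) = x i ∧ mv (τ j) (y i) = y i

/-- TRANS: independent exchanges give many sets in the Fourier support. -/
def T_TRANS : Prop := ∀ (J V : Type) [Fintype J] [Fintype V] (k r : ℕ)
  (f : (Pt J V k → ZMod 2) → Bool) (S : Pt J V k → ZMod 2) (x y : Fin r → Pt J V k),
  Inv f → fh (ind f) S ≠ 0 → Pairs x y → (∀ i, S (x i) ≠ S (y i)) →
  2 ^ r ≤ spar (ind f)

/-- PAIRS: a large configuration contains `r` pairs of points of equal types that can be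
exchanged independently. -/
def T_PAIRS : Prop := ∀ (J V : Type) [Fintype J] [Fintype V] (k r : ℕ)
  (A : Pt J V k → ZMod 2), eb (Fintype.card J) k r < sz A →
  ∃ x y : Fin r → Pt J V k, Pairs x y ∧ (∀ i, A (x i) ≠ 0 ∧ A (y i) ≠ 0) ∧
    (∀ i, ty (x i) = ty (y i)) ∧ (∀ i j, x i ≠ y j) ∧
    Function.Injective x ∧ Function.Injective y

/-- DEC: a set that is odd on a null configuration in `U` distinguishes two points in `U` that
are exchanged by a permutation supported in `U`. -/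
def T_DEC : Prop := ∀ (J V : Type) [Fintype J] [Fintype V] (k : ℕ)
  (S b : Pt J V k → ZMod 2) (U : Set V), (∀ t, par b t = 0) → ip S b = 1 → vs b ⊆ U →
  ∃ (x y : Pt J V k) (τ : Equiv.Perm V), (∀ a, x.2 a ∈ U) ∧ (∀ a, y.2 a ∈ U) ∧
    mv τ x = y ∧ (∀ v, v ∉ U → τ v = v) ∧ S x ≠ S y

/-- ODD: if a set of the Fourier support is odd on null configurations in disjoint sets of
vertices, the sparsity is at least `2^r`. -/
def T_ODD : Prop := ∀ (J V : Type) [Fintype J] [Fintype V] (k r : ℕ)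
  (f : (Pt J V k → ZMod 2) → Bool) (S : Pt J V k → ZMod 2) (b : Fin r → Pt J V k → ZMod 2)
  (U : Fin r → Set V), Inv f → fh (ind f) S ≠ 0 → (∀ i t, par (b i) t = 0) →
  (∀ i, ip S (b i) = 1) → (∀ i, vs (b i) ⊆ U i) → (∀ i j, i ≠ j → Disjoint (U i) (U j)) →
  2 ^ r ≤ spar (ind f)

/-- BIG: the case of a large minimal configuration. -/
def T_BIG : Prop := ∀ (J V : Type) [Fintype J] [Fintype V] (k r : ℕ)
  (f : (Pt J V k → ZMod 2) → Bool) (R G : Pt J V k → ZMod 2) (c : Bool), 0 < r → Inv f →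
  f (R + G) ≠ c →
  (∀ G' : Pt J V k → ZMod 2, (∀ t, par G' t = par G t) → (∀ x, G' x ≠ 0 → G x ≠ 0) →
    sz G' < sz G → f (R + G') = c) →
  eb (Fintype.card J) k r < sz G → 2 ^ r ≤ spar (ind f)

/-- PUSHA: `push` is additive and functorial and only depends on the map on the vertices used. -/
def T_PUSHA : Prop := ∀ (J V W Y : Type) [Fintype J] [Fintype V] [Fintype W] [Fintype Y] (k : ℕ)
  (g : W → Y) (h h' : V → W) (A B : Pt J V k → ZMod 2),
  push h (A + B) = push h A + push h B ∧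
  push g (push h A) = push (fun v => g (h v)) A ∧
  ((∀ v ∈ vs A, h v = h' v) → push h A = push h' A)

/-- PUSHB: vertices and types of `push h A` for `h` injective on the vertices of `A`. -/
def T_PUSHB : Prop := ∀ (J V W : Type) [Fintype J] [Fintype V] [Fintype W] (k : ℕ)
  (h : V → W) (A : Pt J V k → ZMod 2),
  vs (push h A) ⊆ h '' vs A ∧ ((∀ v ∈ vs A, ∀ w ∈ vs A, h v = h w → v = w) →
    ∀ t, par (push h A) t = par A t)

/-- PUSHC: `push` by a permutation; additivity of the parities. -/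
def T_PUSHC : Prop := ∀ (J V : Type) [Fintype J] [Fintype V] (k : ℕ)
  (σ : Equiv.Perm V) (f : (Pt J V k → ZMod 2) → Bool) (A B : Pt J V k → ZMod 2),
  (Inv f → f (push σ A) = f A) ∧ push (fun v : V => v) A = A ∧
  (∀ t, par (A + B) t = par A t + par B t) ∧ vs (A + B) ⊆ vs A ∪ vs B

/-- COPY: disjoint copies of a set of vertices away from another set. -/
def T_COPY : Prop := ∀ (V : Type) [Fintype V] (m : ℕ) (U W : Set V),
  W.ncard + m * U.ncard ≤ Fintype.card V →
  ∃ e : Fin m → V → V, (∀ i, ∀ v ∈ U, e i v ∉ W) ∧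
    ∀ i j, ∀ v ∈ U, ∀ w ∈ U, e i v = e j w → i = j ∧ v = w

/-- SONE: the case of a small null configuration disjoint from `R` that changes the value. -/
def T_SONE : Prop := ∀ (J V : Type) [Fintype J] [Fintype V] (k r : ℕ)
  (f : (Pt J V k → ZMod 2) → Bool) (R G : Pt J V k → ZMod 2), 0 < r → Inv f →
  (∀ t, par G t = 0) → Disjoint (vs R) (vs G) → f (R + G) ≠ f R →
  (vs R).ncard + 2 * r * (vs G).ncard ≤ Fintype.card V → 2 ^ r ≤ spar (ind f)

/-- STWO: the case of a small configuration `B` in the class of `R`. -/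
def T_STWO : Prop := ∀ (J V : Type) [Fintype J] [Fintype V] (k r : ℕ)
  (f : (Pt J V k → ZMod 2) → Bool) (R B : Pt J V k → ZMod 2) (c : Bool), 0 < r → Inv f →
  (∀ t, par B t = par R t) → f B ≠ c →
  (∀ G : Pt J V k → ZMod 2, (∀ t, par G t = 0) → Disjoint (vs R) (vs G) → f (R + G) = c) →
  (vs B).ncard + 2 * r * (vs R).ncard ≤ Fintype.card V → 2 ^ r ≤ spar (ind f)

/-- MINI: a configuration of minimal size with given parities has at most one point of each
type; number of vertices. -/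
def T_MINI : Prop := ∀ (J V : Type) [Fintype J] [Fintype V] (k : ℕ) (A : Pt J V k → ZMod 2),
  (vs A).ncard ≤ k * sz A ∧
  ∃ R : Pt J V k → ZMod 2, (∀ t, par R t = par A t) ∧
    sz R ≤ Fintype.card J * 2 ^ (k * k)

/-- MAIN: an invariant function that is not a function of the parities has sparsity at least
`2^r` as soon as there are enough vertices. -/
def T_MAIN : Prop := ∀ (J V : Type) [Fintype J] [Fintype V] (k r : ℕ)
  (f : (Pt J V k → ZMod 2) → Bool) (A B : Pt J V k → ZMod 2), 0 < r → Inv f →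
  (∀ t, par A t = par B t) → f A ≠ f B → nb (Fintype.card J) k r ≤ Fintype.card V →
  2 ^ r ≤ spar (ind f)

/-! ## C. General actions of the symmetric group -/

/-- `X` is a set with an action of the permutations of `Fin n`, with at most `q` orbits, each
point being fixed by the pointwise stabiliser of a set of at most `k` elements. -/
def Nom (q k n : ℕ) (X : Type) [Fintype X] [MulAction (Equiv.Perm (Fin n)) X] : Prop :=
  Nat.card (MulAction.orbitRel.Quotient (Equiv.Perm (Fin n)) X) ≤ q ∧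
  ∀ x : X, ∃ T : Finset (Fin n), T.card ≤ k ∧
    ∀ σ : Equiv.Perm (Fin n), (∀ v ∈ T, σ v = v) → σ • x = x

/-- The parities of a configuration on the orbits. -/
def opar (n : ℕ) {X : Type} [Fintype X] [MulAction (Equiv.Perm (Fin n)) X] (A : X → ZMod 2)
    (x : X) : ZMod 2 :=
  ∑ y : X, if y ∈ MulAction.orbit (Equiv.Perm (Fin n)) x then A y else 0

/-- NOMA: such a set is an equivariant quotient of a set of coloured injective tuples, two tuples
going to the same orbit exactly if they have the same colour. -/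
def T_NOMA : Prop := ∀ (q k n : ℕ) (X : Type) [Fintype X] [MulAction (Equiv.Perm (Fin n)) X],
  Nom q k n X → k ≤ n →
  ∃ π : Pt (Fin q) (Fin n) k → Option X,
    (∀ (σ : Equiv.Perm (Fin n)) p, π (mv σ p) = (π p).map (fun x => σ • x)) ∧
    (∀ p, π p ≠ none → Function.Injective p.2) ∧
    (∀ p p' x x', π p = some x → π p' = some x' →
      (x' ∈ MulAction.orbit (Equiv.Perm (Fin n)) x ↔ p.1 = p'.1)) ∧
    ∀ x, ∃ p, π p = some x

/-- NOMC: the number of points. -/
def T_NOMC : Prop := ∀ (q k n : ℕ) (X : Type) [Fintype X] [MulAction (Equiv.Perm (Fin n)) X],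
  Nom q k n X → Fintype.card X ≤ q * (n ^ k + 1)

/-- SUBM: pulling back a Boolean function along an additive map does not increase the rank. -/
def T_SUBM : Prop := ∀ (X Y : Type) [Fintype X] [Fintype Y] (f : (X → ZMod 2) → Bool)
  (L : (Y → ZMod 2) → (X → ZMod 2)), (∀ A B, L (A + B) = L A + L B) →
  (xmat (fun A => f (L A))).rank ≤ (xmat f).rank

/-- NOMR: `MAIN` for general actions. -/
def T_NOMR : Prop := ∀ (q k n r : ℕ) (X : Type) [Fintype X] [MulAction (Equiv.Perm (Fin n)) X]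
  (f : (X → ZMod 2) → Bool) (A B : X → ZMod 2), Nom q k n X → k ≤ n → 0 < r →
  (∀ (σ : Equiv.Perm (Fin n)) (A : X → ZMod 2), f (fun x => A (σ • x)) = f A) →
  (∀ x, opar n A x = opar n B x) → f A ≠ f B → nb q k r ≤ n →
  2 ^ r ≤ (xmat f).rank

/-- FIN: the theorem. -/
def T_FIN : Prop := ∀ (k q : ℕ), ∃ C : ℝ, ∀ (n : ℕ) (X : Type) [Fintype X]
  [MulAction (Equiv.Perm (Fin n)) X] (f : (X → ZMod 2) → Bool), Nom q k n X →
  (∀ (σ : Equiv.Perm (Fin n)) (A : X → ZMod 2), f (fun x => A (σ • x)) = f A) →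
  (∃ d : ℕ, (d : ℝ) ≤ C * (Real.logb 2 ((xmat f).rank : ℝ)) ^ (k * (k + 1)) + C ∧ Prot f d) ∧
  ((∃ A B : X → ZMod 2, (∀ x, opar n A x = opar n B x) ∧ f A ≠ f B) →
    (n : ℝ) ≤ C * (Real.logb 2 ((xmat f).rank : ℝ) + 1) ^ (k + 1))

end Pool.Agent.XLR
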